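import Mathlib
import Pool.Agent.Lib_helper11.CUB.TypeI

/-!
Number fields of odd degree: signs of norms, rational squares.
-/

namespace Pool.Agent.Lib_helper3.QUI

open Pool.Agent.Lib_helper11.CUB

variable {K : Type*} [Field K] [NumberField K]

theorem H_pow_odd {h : ℕ → ℤ} (hh : CM h) {d : ℕ} (hd : Odd d) {x : ℚ} (hx : x ≠ 0) :
    H h (x ^ d) = H h x := by
  obtain ⟨k, rfl⟩ := hd
  induction k with
  | zero => simp
  | succ k ih =>
    have e : x ^ (2 * (k + 1) + 1) = x ^ (2 * k + 1) * x ^ 2 := by ring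
    rw [e, H_mul hh (pow_ne_zero _ hx) (pow_ne_zero _ hx), ih, H_pow2 hh hx, mul_one]

theorem norm_q (q : ℚ) : Algebra.norm ℚ (q : K) = q ^ Module.finrank ℚ K := by
  have := Algebra.norm_algebraMap (S := K) q
  simpa using this

theorem H_norm_neg (h : ℕ → ℤ) (z : K) :
    H h (Algebra.norm ℚ (-z)) = H h (Algebra.norm ℚ z) := by
  have : -z = ((-1 : ℚ) : K) * z := by push_cast; ring
  rw [this, map_mul, norm_q]
  rcases neg_one_pow_eq_or ℚ (Module.finrank ℚ K) with h1 | h1 <;> rw [h1]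
  · rw [one_mul]
  · rw [neg_one_mul, H_neg]

theorem G_neg' (h : ℕ → ℤ) (u : K) (x : ℚ) : G h (-u) (-x) = G h u x := by
  unfold G
  have : ((-x : ℚ) : K) - -u = -((x : K) - u) := by push_cast; ring
  rw [this, H_norm_neg]

theorem H_norm_mul {h : ℕ → ℤ} (hh : CM h) {x y : K} (hx : x ≠ 0) (hy : y ≠ 0) :
    H h (Algebra.norm ℚ (x * y)) = H h (Algebra.norm ℚ x) * H h (Algebra.norm ℚ y) := by
  rw [map_mul, H_mul hh (norm_ne hx) (norm_ne hy)]

theorem H_norm_q (hd : Odd (Module.finrank ℚ K)) {h : ℕ → ℤ} (hh : CM h) {q : ℚ} (hq : q ≠ 0) :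
    H h (Algebra.norm ℚ (q : K)) = H h q := by
  rw [norm_q, H_pow_odd hh hd hq]

theorem G_scale' (hd : Odd (Module.finrank ℚ K)) {h : ℕ → ℤ} (hh : CM h) {u : K}
    (hu : u ∉ (⊥ : IntermediateField ℚ K)) {r : ℚ} (hr : r ≠ 0) (x : ℚ) :
    G h ((r : K) * u) (r * x) = H h r * G h u x := by
  unfold G
  have : ((r * x : ℚ) : K) - (r : K) * u = (r : K) * ((x : K) - u) := by push_cast; ring
  rw [this, H_norm_mul hh (by exact_mod_cast hr) (sub_ne_zero_of hu x), H_norm_q hd hh hr]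

/-- A rational number which is a square in a field of odd degree is a square. -/
theorem isSquare_of_isSquare (hd : Odd (Module.finrank ℚ K)) {q : ℚ} {z : K}
    (hz : z ^ 2 = (q : K)) : IsSquare q := by
  rcases eq_or_ne q 0 with rfl | hq
  · exact ⟨0, by norm_num⟩
  obtain ⟨k, hk⟩ := hd
  have h1 : Algebra.norm ℚ z ^ 2 = q ^ (2 * k + 1) := by
    rw [← map_pow, hz, norm_q, hk]
  refine ⟨Algebra.norm ℚ z / q ^ k, ?_⟩
  have h2 : q ^ k ≠ 0 := pow_ne_zero _ hq
  field_simp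
  rw [h1]; ring

end Pool.Agent.Lib_helper3.QUI
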