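import Mathlib
import Pool.Agent.Lib_helper3.QUI.Odd

/-!
A conic with a point in a field of odd degree has a rational point.
-/

namespace Pool.Agent.Lib_helper3.QUI

open Polynomial

variable {K : Type*} [Field K] [NumberField K]

theorem springer (hd : Odd (Module.finrank ℚ K)) {q c : ℚ} (hq : 0 ≤ q) (hc : c ≠ 0) {x y : K}
    (h : x ^ 2 - (q : K) * y ^ 2 = (c : K)) : ∃ X Y : ℚ, X ^ 2 - q * Y ^ 2 = c := by
  classical
  obtain ⟨b, -⟩ : ∃ b : Module.Basis (Fin (Module.finrank ℚ K)) ℚ K, True :=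
    ⟨Module.finBasis ℚ K, trivial⟩
  obtain ⟨A, hA⟩ : ∃ A, A = Algebra.leftMulMatrix b x := ⟨_, rfl⟩
  obtain ⟨B, hB⟩ : ∃ B, B = Algebra.leftMulMatrix b y := ⟨_, rfl⟩
  have hcomm : A * B = B * A := by
    rw [hA, hB, ← map_mul, ← map_mul, mul_comm]
  have hrel : A * A - q • (B * B) = c • (1 : Matrix _ _ ℚ) := by
    have e : x * x - q • (y * y) = c • (1 : K) := by
      simp only [Algebra.smul_def, eq_ratCast, mul_one]
      rw [← h]; ring
    have := congrArg (Algebra.leftMulMatrix b) e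
    rw [map_sub, map_smul, map_smul, map_mul, map_mul, map_one, ← hA, ← hB] at this
    exact this
  -- the polynomial
  obtain ⟨P, hP⟩ : ∃ P : ℚ[X], P = (A.map C + (X : ℚ[X]) • B.map C).det := ⟨_, rfl⟩
  obtain ⟨r, hr0, hr⟩ : ∃ r : ℝ, 0 ≤ r ∧ r ^ 2 = q := ⟨Real.sqrt q, Real.sqrt_nonneg _,
    Real.sq_sqrt (by exact_mod_cast hq)⟩
  have heval : ∀ t : ℝ, aeval t P = (A.map (algebraMap ℚ ℝ) + t • B.map (algebraMap ℚ ℝ)).det := by
    intro t
    rw [hP, ← AlgHom.coe_toRingHom, RingHom.map_det]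
    congr 1
    ext i j
    simp [RingHom.mapMatrix_apply, Matrix.map_apply, Matrix.add_apply, Matrix.smul_apply]
    exact mul_comm _ _
  obtain ⟨Q, R0, R1, hQ⟩ : ∃ (Q : ℚ[X]) (R0 R1 : ℚ), P = (X ^ 2 - C q) * Q + (C R0 + C R1 * X) := by
    have hm : (X ^ 2 - C q : ℚ[X]).Monic := monic_X_pow_sub_C q (by norm_num)
    refine ⟨P /ₘ (X ^ 2 - C q), (P %ₘ (X ^ 2 - C q)).coeff 0, (P %ₘ (X ^ 2 - C q)).coeff 1, ?_⟩
    have h1 := modByMonic_add_div P (q := X ^ 2 - C q)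
    have h2 : (P %ₘ (X ^ 2 - C q)).natDegree < 2 := by
      have := natDegree_modByMonic_lt P hm (by
        intro h; have := congrArg natDegree h; rw [natDegree_X_pow_sub_C] at this; simp at this)
      rwa [natDegree_X_pow_sub_C] at this
    have h3 : P %ₘ (X ^ 2 - C q) = C ((P %ₘ (X ^ 2 - C q)).coeff 0) +
        C ((P %ₘ (X ^ 2 - C q)).coeff 1) * X := by
      have := (P %ₘ (X ^ 2 - C q)).as_sum_range_C_mul_X_pow' h2
      rw [Finset.sum_range_succ, Finset.sum_range_one] at this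
      simpa using this
    rw [← h3]
    rw [add_comm, h1]
  have hr' : (r : ℝ) ^ 2 - (q : ℝ) = 0 := by rw [hr]; ring
  have e1 : aeval r P = (R0 : ℝ) + R1 * r := by
    rw [hQ]; simp [hr']
  have e2 : aeval (-r) P = (R0 : ℝ) - R1 * r := by
    rw [hQ]; simp [hr']; ring
  have e3 : aeval r P * aeval (-r) P = (c : ℝ) ^ Module.finrank ℚ K := by
    rw [heval, heval, ← Matrix.det_mul]
    have hcomm' : A.map (algebraMap ℚ ℝ) * B.map (algebraMap ℚ ℝ) =
        B.map (algebraMap ℚ ℝ) * A.map (algebraMap ℚ ℝ) := by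
      rw [← Matrix.map_mul, ← Matrix.map_mul, hcomm]
    have hrel' : A.map (algebraMap ℚ ℝ) * A.map (algebraMap ℚ ℝ) -
        (q : ℝ) • (B.map (algebraMap ℚ ℝ) * B.map (algebraMap ℚ ℝ)) =
        (c : ℝ) • (1 : Matrix _ _ ℝ) := by
      rw [← Matrix.map_mul, ← Matrix.map_mul]
      have := congrArg (fun M : Matrix _ _ ℚ => M.map (algebraMap ℚ ℝ)) hrel
      ext i j
      have h5 := congrFun (congrFun this i) j
      simp only [Matrix.map_apply, Matrix.sub_apply, Matrix.smul_apply, smul_eq_mul, map_sub,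
        map_mul, eq_ratCast] at h5 ⊢
      rw [h5, Matrix.one_apply, Matrix.one_apply]
      split_ifs <;> simp
    have : (A.map (algebraMap ℚ ℝ) + r • B.map (algebraMap ℚ ℝ)) *
        (A.map (algebraMap ℚ ℝ) + (-r) • B.map (algebraMap ℚ ℝ)) = (c : ℝ) • 1 := by
      rw [← hrel', ← hr, add_mul, mul_add, mul_add, Matrix.mul_smul, Matrix.smul_mul,
        Matrix.smul_mul, Matrix.mul_smul, hcomm', smul_smul]
      module
    rw [this, Matrix.det_smul, Matrix.det_one, mul_one, Fintype.card_fin]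
  have e4 : (R0 ^ 2 - q * R1 ^ 2 : ℚ) = c ^ Module.finrank ℚ K := by
    have : ((R0 ^ 2 - q * R1 ^ 2 : ℚ) : ℝ) = ((c ^ Module.finrank ℚ K : ℚ) : ℝ) := by
      push_cast
      rw [← e3, e1, e2, ← hr]; ring
    exact_mod_cast this
  obtain ⟨k, hk⟩ := hd
  rw [hk] at e4
  have hck : c ^ k ≠ 0 := pow_ne_zero _ hc
  refine ⟨R0 / c ^ k, R1 / c ^ k, ?_⟩
  field_simp
  rw [e4]; ring

end Pool.Agent.Lib_helper3.QUI
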