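import Mathlib
import Pool.Agent.Lib_helper3.QUI.Springer

/-!
Linear forms at the solutions of Pell's equation, at every scale.
-/

namespace Pool.Agent.Lib_helper3.QUI

open Pool.Agent.Lib_helper11.CUB

/-- The value `±(A X ± B Y) + σ`. -/
def val (f : ℚ × ℚ × ℚ) (X Y : ℤ) (e₁ e₂ : ℚ) : ℚ := e₁ * (f.1 * X + e₂ * f.2.1 * Y) + f.2.2

/-- The discriminant of the pair of values of a form at `(X, Y)` and `(X, -Y)`. -/
def disc (q : ℕ) (f : ℚ × ℚ × ℚ) : ℚ := q * f.1 ^ 2 - f.2.1 ^ 2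

/-- The form `f` is well-behaved at `(X, Y)`, at the scale `T`. -/
def Good (q : ℕ) (f : ℚ × ℚ × ℚ) (X Y : ℤ) (T C : ℚ) : Prop :=
  (∀ e₁ e₂ : ℚ, (e₁ = 1 ∨ e₁ = -1) → (e₂ = 1 ∨ e₂ = -1) →
    T ≤ |val f X Y e₁ e₂| ∧ |val f X Y e₁ e₂| ≤ C * X) ∧
  (∀ e₂ : ℚ, (e₂ = 1 ∨ e₂ = -1) → val f X Y 1 e₂ * val f X Y (-1) e₂ < 0) ∧
  (∀ e₁ : ℚ, (e₁ = 1 ∨ e₁ = -1) → 0 < disc q f * (val f X Y e₁ 1 * val f X Y e₁ (-1)))

theorem sign_shift {w σ : ℚ} (h : |σ| < |w|) : 0 < w * (w + σ) := by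
  rcases lt_trichotomy w 0 with h0 | h0 | h0
  · rw [abs_of_neg h0] at h
    have := le_abs_self σ
    exact mul_pos_of_neg_of_neg h0 (by linarith)
  · rw [h0, abs_zero] at h
    exact absurd h (not_lt.2 (abs_nonneg _))
  · rw [abs_of_pos h0] at h
    have := neg_abs_le σ
    exact mul_pos h0 (by linarith)

theorem good_of {q : ℕ} (hq : 1 ≤ q) (f : ℚ × ℚ × ℚ) (hf : disc q f ≠ 0) :
    ∃ κ C : ℚ, 1 ≤ κ ∧ 1 ≤ C ∧ ∀ T : ℚ, 1 ≤ T → ∀ X Y : ℤ, (X : ℚ) ^ 2 - q * (Y : ℚ) ^ 2 = 1 →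
      (1 : ℚ) ≤ X → (1 : ℚ) ≤ Y → κ * T ≤ X → Good q f X Y T C := by
  obtain ⟨A, B, σ⟩ := f
  simp only [disc] at hf
  have hq1 : (1 : ℚ) ≤ q := by exact_mod_cast hq
  obtain ⟨δ, X0, hδ, hF⟩ := pell_form (a := A) (c := B) hq1 hf
  obtain ⟨δ', X0', hδ', hF'⟩ := pell_form (a := A) (c := -B) hq1 (by rwa [neg_sq])
  obtain ⟨M, hM⟩ : ∃ M, M = q * A ^ 2 - B ^ 2 := ⟨_, rfl⟩
  rw [← hM] at hf
  have hMp : 0 < |M| := abs_pos.2 hf
  have hσ := abs_nonneg σ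
  obtain ⟨κ, hκ⟩ : ∃ κ : ℚ, κ = 1 + |X0| + |X0'| + (|σ| + 1) / δ + (|σ| + 1) / δ' +
      (B ^ 2 + 1) / |M| := ⟨_, rfl⟩
  have p1 := abs_nonneg X0
  have p2 := abs_nonneg X0'
  have p3 : 0 ≤ (|σ| + 1) / δ := by positivity
  have p4 : 0 ≤ (|σ| + 1) / δ' := by positivity
  have p5 : 0 ≤ (B ^ 2 + 1) / |M| := by positivity
  have hA := abs_nonneg A
  have hB := abs_nonneg B
  refine ⟨κ, 1 + |A| + |B| + |σ|, by linarith, by linarith, ?_⟩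
  intro T hT X Y hXY hX hY hκX
  have hκ0 : 0 ≤ κ := by linarith
  have hκ1 : κ ≤ X := by nlinarith
  have x0 : X0 ≤ X := by have := le_abs_self X0; linarith
  have x0' : X0' ≤ X := by have := le_abs_self X0'; linarith
  obtain ⟨l1, u1⟩ := hF X Y hXY hX hY x0
  obtain ⟨l2, u2⟩ := hF' X Y hXY hX hY x0'
  rw [abs_neg] at u2
  -- lower bounds
  have low : ∀ δ₀ : ℚ, 0 < δ₀ → (|σ| + 1) / δ₀ ≤ κ → |σ| + T ≤ δ₀ * X := by
    intro δ₀ h0 h1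
    rw [div_le_iff₀ h0] at h1
    have h2 : (|σ| + 1) * T ≤ κ * δ₀ * T := mul_le_mul_of_nonneg_right h1 (by linarith)
    have h3 : δ₀ * (κ * T) ≤ δ₀ * X := mul_le_mul_of_nonneg_left hκX h0.le
    have h4 : |σ| * 1 ≤ |σ| * T := mul_le_mul_of_nonneg_left hT hσ
    linarith
  have b1 := low δ hδ (by linarith)
  have b2 := low δ' hδ' (by linarith)
  have key : ∀ e₂ : ℚ, (e₂ = 1 ∨ e₂ = -1) → |σ| + T ≤ |A * X + e₂ * B * Y| ∧
      |A * X + e₂ * B * Y| ≤ (|A| + |B|) * X := by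
    intro e₂ he
    rcases he with rfl | rfl
    · rw [one_mul]; exact ⟨b1.trans l1, u1⟩
    · rw [neg_one_mul]; exact ⟨b2.trans l2, u2⟩
  have key2 : ∀ e₁ e₂ : ℚ, (e₁ = 1 ∨ e₁ = -1) → (e₂ = 1 ∨ e₂ = -1) →
      |e₁ * (A * X + e₂ * B * Y)| = |A * X + e₂ * B * Y| := by
    intro e₁ e₂ he₁ _
    rcases he₁ with rfl | rfl
    · rw [one_mul]
    · rw [neg_one_mul, abs_neg]
  have pos : ∀ e₁ e₂ : ℚ, (e₁ = 1 ∨ e₁ = -1) → (e₂ = 1 ∨ e₂ = -1) →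
      0 < e₁ * (A * X + e₂ * B * Y) * (e₁ * (A * X + e₂ * B * Y) + σ) := by
    intro e₁ e₂ he₁ he₂
    apply sign_shift
    rw [key2 e₁ e₂ he₁ he₂]
    linarith [(key e₂ he₂).1]
  refine ⟨?_, ?_, ?_⟩
  · intro e₁ e₂ he₁ he₂
    have k := key e₂ he₂
    rw [← key2 e₁ e₂ he₁ he₂] at k
    simp only [val]
    constructor
    · have := abs_sub_abs_le_abs_sub (e₁ * (A * X + e₂ * B * Y)) (-σ)
      rw [sub_neg_eq_add, abs_neg] at this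
      linarith [k.1]
    · have h1 := abs_add_le (e₁ * (A * X + e₂ * B * Y)) σ
      have h2 : |σ| * 1 ≤ |σ| * X := mul_le_mul_of_nonneg_left hX hσ
      nlinarith [k.2]
  · intro e₂ he₂
    have h1 := pos 1 e₂ (Or.inl rfl) he₂
    have h2 := pos (-1) e₂ (Or.inr rfl) he₂
    simp only [val]
    generalize 1 * (A * X + e₂ * B * Y) + σ = u at *
    generalize -1 * (A * X + e₂ * B * Y) + σ = v at *
    generalize A * X + e₂ * B * Y = w at *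
    have h3 := mul_pos h1 h2
    have h4 : 1 * w * u * (-1 * w * v) = -(w ^ 2 * (u * v)) := by ring
    rw [h4] at h3
    by_contra h5
    have h6 : 0 ≤ w ^ 2 * (u * v) := mul_nonneg (sq_nonneg _) (not_lt.1 h5)
    linarith
  · intro e₁ he₁
    have h1 := pos e₁ 1 he₁ (Or.inl rfl)
    have h2 := pos e₁ (-1) he₁ (Or.inr rfl)
    have e₁sq : e₁ ^ 2 = 1 := by rcases he₁ with rfl | rfl <;> norm_num
    have hprod : q * ((A * X + 1 * B * Y) * (A * X + -1 * B * Y)) = M * (X : ℚ) ^ 2 + B ^ 2 := by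
      rw [hM]; linear_combination (B ^ 2) * hXY
    have hM2 : B ^ 2 < |M| * (X : ℚ) ^ 2 := by
      have h3 : (B ^ 2 + 1) / |M| ≤ X := by linarith
      rw [div_le_iff₀ hMp] at h3
      have h4 : (X : ℚ) * |M| ≤ (X : ℚ) ^ 2 * |M| :=
        mul_le_mul_of_nonneg_right (by nlinarith) hMp.le
      linarith
    have hpos : 0 < M * (q * ((A * X + 1 * B * Y) * (A * X + -1 * B * Y))) := by
      rw [hprod]
      have h3 : M * (M * (X : ℚ) ^ 2 + B ^ 2) = |M| * (|M| * X ^ 2) + M * B ^ 2 := by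
        have : |M| * |M| = M * M := abs_mul_abs_self M
        linear_combination (-(X : ℚ) ^ 2) * this
      rw [h3]
      have h4 : |M| * B ^ 2 < |M| * (|M| * (X : ℚ) ^ 2) := mul_lt_mul_of_pos_left hM2 hMp
      have h5 : -(|M| * B ^ 2) ≤ M * B ^ 2 := by
        have := mul_le_mul_of_nonneg_right (neg_abs_le M) (sq_nonneg B)
        linarith
      linarith
    simp only [disc, val]
    rw [← hM]
    generalize e₁ * (A * X + 1 * B * Y) + σ = u at *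
    generalize e₁ * (A * X + -1 * B * Y) + σ = v at *
    generalize A * X + 1 * B * Y = w at *
    generalize A * X + -1 * B * Y = z at *
    have hq0 : (0 : ℚ) < q := by linarith
    have h3 : 0 < M * (w * z) := by
      have : 0 < q * (M * (w * z)) := by linarith
      exact (mul_pos_iff_of_pos_left hq0).1 this
    have h4 := mul_pos h3 (mul_pos h1 h2)
    have h5 : M * (w * z) * (e₁ * w * u * (e₁ * z * v)) = (w * z) ^ 2 * (M * (u * v)) * e₁ ^ 2 := by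
      ring
    rw [h5, e₁sq, mul_one] at h4
    by_contra h6
    have h7 : (w * z) ^ 2 * (M * (u * v)) ≤ 0 :=
      mul_nonpos_of_nonneg_of_nonpos (sq_nonneg _) (not_lt.1 h6)
    linarith

/-- Several forms at once. -/
theorem forms {q : ℕ} (hq : ¬ IsSquare (q : ℤ)) (l : List (ℚ × ℚ × ℚ))
    (hl : ∀ f ∈ l, disc q f ≠ 0) :
    ∃ C : ℚ, 1 ≤ C ∧ ∀ T : ℚ, 1 ≤ T → ∃ X Y : ℤ, (X : ℚ) ^ 2 - q * (Y : ℚ) ^ 2 = 1 ∧
      ∀ f ∈ l, (∀ e₁ e₂ : ℚ, (e₁ = 1 ∨ e₁ = -1) → (e₂ = 1 ∨ e₂ = -1) →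
        T ≤ |val f X Y e₁ e₂| ∧ |val f X Y e₁ e₂| ≤ C * T) ∧
        (∀ e₂ : ℚ, (e₂ = 1 ∨ e₂ = -1) → val f X Y 1 e₂ * val f X Y (-1) e₂ < 0) ∧
        (∀ e₁ : ℚ, (e₁ = 1 ∨ e₁ = -1) → 0 < disc q f * (val f X Y e₁ 1 * val f X Y e₁ (-1))) := by
  have hq1 : 1 ≤ q := by
    rcases Nat.eq_zero_or_pos q with h | h
    · exfalso; apply hq; rw [h]; exact ⟨0, by norm_num⟩
    · exact h
  have main : ∃ κ C : ℚ, 1 ≤ κ ∧ 1 ≤ C ∧ ∀ f ∈ l, ∀ T : ℚ, 1 ≤ T → ∀ X Y : ℤ,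
      (X : ℚ) ^ 2 - q * (Y : ℚ) ^ 2 = 1 → (1 : ℚ) ≤ X → (1 : ℚ) ≤ Y → κ * T ≤ X →
        Good q f X Y T C := by
    induction l with
    | nil => exact ⟨1, 1, le_rfl, le_rfl, by simp⟩
    | cons f l ih =>
      obtain ⟨κ, C, h1, h2, h3⟩ := ih (fun g hg => hl g (List.mem_cons_of_mem _ hg))
      obtain ⟨κ', C', h1', h2', h3'⟩ := good_of hq1 f (hl f List.mem_cons_self)
      refine ⟨max κ κ', max C C', h1.trans (le_max_left _ _), h2.trans (le_max_left _ _), ?_⟩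
      intro g hg T hT X Y hXY hX hY hκ
      have mono : ∀ C₀ : ℚ, C₀ ≤ max C C' → Good q g X Y T C₀ → Good q g X Y T (max C C') := by
        intro C₀ hC₀ hg'
        refine ⟨fun e₁ e₂ he₁ he₂ => ?_, hg'.2⟩
        obtain ⟨a, b⟩ := hg'.1 e₁ e₂ he₁ he₂
        exact ⟨a, b.trans (mul_le_mul_of_nonneg_right hC₀ (by linarith))⟩
      rcases List.mem_cons.1 hg with rfl | hg
      · exact mono C' (le_max_right _ _) (h3' T hT X Y hXY hX hY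
          (le_trans (mul_le_mul_of_nonneg_right (le_max_right _ _) (by linarith)) hκ))
      · exact mono C (le_max_left _ _) (h3 g hg T hT X Y hXY hX hY
          (le_trans (mul_le_mul_of_nonneg_right (le_max_left _ _) (by linarith)) hκ))
  obtain ⟨κ, C, hκ, hC, hmain⟩ := main
  obtain ⟨Uc, hUc, hunits⟩ := Pool.Agent.Lib_helper3.CYC.units (d := q) (W := 1)
    (by exact_mod_cast hq1) hq (by norm_num)
  have hUcq : (1 : ℚ) ≤ (Uc : ℚ) := by exact_mod_cast hUc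
  refine ⟨C * (Uc * (2 * κ)), ?_, ?_⟩
  · have h1 : (1 : ℚ) ≤ Uc * (2 * κ) := by nlinarith
    nlinarith
  intro T hT
  have hκT : (1 : ℚ) ≤ κ * T := by nlinarith
  obtain ⟨X, Y, hXY, hX1, hX2⟩ := hunits ⌈κ * T⌉ (by
    rw [Int.one_le_ceil_iff]; linarith)
  obtain ⟨e1, e2, e2', -, -⟩ := hXY
  have b1 : κ * T ≤ X := (Int.le_ceil _).trans (by exact_mod_cast hX1)
  have b2 : (X : ℚ) ≤ Uc * (2 * κ) * T := by
    have h1 : (X : ℚ) ≤ Uc * (⌈κ * T⌉ : ℤ) := by exact_mod_cast hX2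
    have h2 : ((⌈κ * T⌉ : ℤ) : ℚ) ≤ κ * T + 1 := (Int.ceil_lt_add_one _).le
    calc (X : ℚ) ≤ Uc * (⌈κ * T⌉ : ℤ) := h1
      _ ≤ Uc * (2 * (κ * T)) := by
        apply mul_le_mul_of_nonneg_left _ (by linarith)
        linarith
      _ = _ := by ring
  have hXYq : (X : ℚ) ^ 2 - q * (Y : ℚ) ^ 2 = 1 := by exact_mod_cast e1
  refine ⟨X, Y, hXYq, fun f hf => ?_⟩
  obtain ⟨g1, g2, g3⟩ := hmain f hf T hT X Y hXYq (by exact_mod_cast e2) (by exact_mod_cast e2') b1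
  refine ⟨fun e₁ e₂ he₁ he₂ => ?_, g2, g3⟩
  obtain ⟨a, b⟩ := g1 e₁ e₂ he₁ he₂
  refine ⟨a, b.trans ?_⟩
  have : C * X ≤ C * (Uc * (2 * κ) * T) := mul_le_mul_of_nonneg_left b2 (by linarith)
  linarith

end Pool.Agent.Lib_helper3.QUI
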