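import Mathlib
import Pool.Agent.Lib_helper3.QUI.Forms

/-!
Number fields of odd degree: the two relations between generators on a common conic.
-/

namespace Pool.Agent.Lib_helper3.QUI

open Pool.Agent.Lib_helper11.CUB

variable {K : Type*} [Field K] [NumberField K]

/-- The sign of `N(n - u)` is `εp` for `n ∈ (1/D)ℤ ∩ [x, X]`, and `εm` for `-n` in this set. -/
def Two (h : ℕ → ℤ) (D : ℕ) (u : K) (εp εm : ℤ) (x X : ℚ) : Prop :=
  ∀ n : ℚ, (D : ℚ) * n ∈ ZZ → (x ≤ n → n ≤ X → G h u n = εp) ∧ (x ≤ -n → -n ≤ X → G h u n = εm)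

theorem Two.eq {h : ℕ → ℤ} {D : ℕ} {u : K} {εp εm : ℤ} {x X : ℚ} (H : Two h D u εp εm x X)
    {n : ℚ} (hn : (D : ℚ) * n ∈ ZZ) (h1 : x ≤ |n|) (h2 : |n| ≤ X) :
    G h u n = if 0 < n then εp else εm := by
  split_ifs with h0
  · rw [abs_of_pos h0] at h1 h2
    exact (H n hn).1 h1 h2
  · rw [abs_of_nonpos (not_lt.1 h0)] at h1 h2
    exact (H n hn).2 h1 h2

/-- An element of a field of odd degree which satisfies a quadratic equation is rational. -/
theorem quadratic_bot (hd : Odd (Module.finrank ℚ K)) {z : K} {A B C : ℚ} (hA : A ≠ 0)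
    (h : (A : K) * z ^ 2 + B * z + C = 0) : z ∈ (⊥ : IntermediateField ℚ K) := by
  have hAK : (A : K) ≠ 0 := by exact_mod_cast hA
  have h1 : (2 * (A : K) * z + B) ^ 2 = ((B ^ 2 - 4 * A * C : ℚ) : K) := by
    push_cast; linear_combination (4 * (A : K)) * h
  obtain ⟨r, hr⟩ := isSquare_of_isSquare hd h1
  rw [hr] at h1
  push_cast at h1
  have h2 : (2 * (A : K) * z + B - r) * (2 * (A : K) * z + B + r) = 0 := by
    linear_combination h1
  rcases mul_eq_zero.1 h2 with h3 | h3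
  · refine mem_bot_iff.2 ⟨(r - B) / (2 * A), ?_⟩
    push_cast
    field_simp
    linear_combination -h3
  · refine mem_bot_iff.2 ⟨(-r - B) / (2 * A), ?_⟩
    push_cast
    field_simp
    linear_combination -h3

/-- The form `l x' + m y' + σ` along the Pell orbit of the point `(x, y)`. -/
def FF (α β γ x y d l m σ : ℚ) : ℚ × ℚ × ℚ :=
  (l * x + m * y, (-l * (β * x + 2 * γ * y) + m * (2 * α * x + β * y)) * d, σ)

theorem disc_FF {α β γ x y d l m σ c : ℚ} {q : ℕ} (hc : α * x ^ 2 + β * x * y + γ * y ^ 2 = c)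
    (hq : (q : ℚ) = (β ^ 2 - 4 * α * γ) * d ^ 2) :
    disc q (FF α β γ x y d l m σ) = -4 * c * d ^ 2 * (α * m ^ 2 - β * l * m + γ * l ^ 2) := by
  simp only [disc, FF]
  rw [hq, ← hc]; ring

/-- The orbit. -/
theorem orbit {α β γ x y d c : ℚ} {q : ℕ} (hc : α * x ^ 2 + β * x * y + γ * y ^ 2 = c)
    (hq : (q : ℚ) = (β ^ 2 - 4 * α * γ) * d ^ 2) {X Y : ℤ} (hXY : (X : ℚ) ^ 2 - q * (Y : ℚ) ^ 2 = 1)
    {e₁ e₂ : ℚ} (he₁ : e₁ = 1 ∨ e₁ = -1) (he₂ : e₂ = 1 ∨ e₂ = -1) :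
    ∃ x' y' : ℚ, α * x' ^ 2 + β * x' * y' + γ * y' ^ 2 = c ∧
      ∀ l m σ : ℚ, val (FF α β γ x y d l m σ) X Y e₁ e₂ = l * x' + m * y' + σ := by
  have s1 : e₁ ^ 2 = 1 := by rcases he₁ with rfl | rfl <;> norm_num
  have s2 : e₂ ^ 2 = 1 := by rcases he₂ with rfl | rfl <;> norm_num
  refine ⟨e₁ * (x * X + e₂ * (-(β * x + 2 * γ * y) * d) * Y),
    e₁ * (y * X + e₂ * ((2 * α * x + β * y) * d) * Y), ?_, ?_⟩
  · have e : α * (e₁ * (x * X + e₂ * (-(β * x + 2 * γ * y) * d) * Y)) ^ 2 +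
        β * (e₁ * (x * X + e₂ * (-(β * x + 2 * γ * y) * d) * Y)) *
          (e₁ * (y * X + e₂ * ((2 * α * x + β * y) * d) * Y)) +
        γ * (e₁ * (y * X + e₂ * ((2 * α * x + β * y) * d) * Y)) ^ 2 =
        e₁ ^ 2 * (α * x ^ 2 + β * x * y + γ * y ^ 2) *
          (X ^ 2 - e₂ ^ 2 * ((β ^ 2 - 4 * α * γ) * d ^ 2) * Y ^ 2) := by ring
    rw [e, s1, s2, hc, ← hq, one_mul, one_mul, hXY, mul_one]
  · intro l m σ
    simp only [val, FF]; ring

/-- The inscribed quadrilateral. -/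
theorem quad_id {F : Type*} [Field F] {α β γ c a b t s x y : F}
    (h1 : α * t ^ 2 + β * t * s + γ * s ^ 2 = c) (h2 : α * x ^ 2 + β * x * y + γ * y ^ 2 = c) :
    ((a * x + b * y) - (a * t + b * s)) *
        (((α * b - β * a) * x - γ * a * y) - (α * b * t + γ * a * s)) =
      (x - t) * ((a * ((α * b - β * a) * x - γ * a * y) + α * b * (a * x + b * y)) -
        (α * b ^ 2 - β * a * b + γ * a ^ 2) * s) := by
  linear_combination (a * b) * h1 - (a * b) * h2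


theorem ZZ_int_mul {D : ℕ} {z : ℚ} (hz : (D : ℚ) * z ∈ ZZ) (k : ℤ) : (D : ℚ) * (z * k) ∈ ZZ := by
  rw [← mul_assoc]
  exact mul_mem hz (int_mem k)

theorem val_lat {D : ℕ} {f : ℚ × ℚ × ℚ} (h1 : (D : ℚ) * f.1 ∈ ZZ) (h2 : (D : ℚ) * f.2.1 ∈ ZZ)
    (h3 : (D : ℚ) * f.2.2 ∈ ZZ) (X Y : ℤ) {e₁ e₂ : ℚ} (he₁ : e₁ = 1 ∨ e₁ = -1)
    (he₂ : e₂ = 1 ∨ e₂ = -1) : (D : ℚ) * val f X Y e₁ e₂ ∈ ZZ := by
  have k1 := ZZ_int_mul h1 X
  have k2 := ZZ_int_mul h2 Y
  have k3 : (D : ℚ) * (f.1 * X + e₂ * f.2.1 * Y) ∈ ZZ := by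
    rcases he₂ with rfl | rfl
    · have : (D : ℚ) * (f.1 * X + 1 * f.2.1 * Y) = D * (f.1 * X) + D * (f.2.1 * Y) := by ring
      rw [this]; exact add_mem k1 k2
    · have : (D : ℚ) * (f.1 * X + -1 * f.2.1 * Y) = D * (f.1 * X) - D * (f.2.1 * Y) := by ring
      rw [this]; exact sub_mem k1 k2
  unfold val
  rcases he₁ with rfl | rfl
  · have : (D : ℚ) * (1 * (f.1 * X + e₂ * f.2.1 * Y) + f.2.2) =
      D * (f.1 * X + e₂ * f.2.1 * Y) + D * f.2.2 := by ring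
    rw [this]; exact add_mem k3 h3
  · have : (D : ℚ) * (-1 * (f.1 * X + e₂ * f.2.1 * Y) + f.2.2) =
      -(D * (f.1 * X + e₂ * f.2.1 * Y)) + D * f.2.2 := by ring
    rw [this]; exact add_mem (neg_mem k3) h3

/-- Common denominators for a list of forms. -/
theorem common_den_forms (l : List (ℚ × ℚ × ℚ)) : ∃ D : ℕ, 1 ≤ D ∧ ∀ f ∈ l,
    (D : ℚ) * f.1 ∈ ZZ ∧ (D : ℚ) * f.2.1 ∈ ZZ ∧ (D : ℚ) * f.2.2 ∈ ZZ := by
  induction l with
  | nil => exact ⟨1, le_rfl, by simp⟩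
  | cons g l ih =>
    obtain ⟨D, hD, h⟩ := ih
    obtain ⟨E, hE, h'⟩ := common_den [g.1, g.2.1, g.2.2]
    refine ⟨D * E, Nat.mul_pos hD hE, ?_⟩
    intro f hf
    rcases List.mem_cons.1 hf with rfl | hf
    · exact ⟨mul_mem_ZZ_of_dvd (dvd_mul_left _ _) (h' _ (by simp)),
        mul_mem_ZZ_of_dvd (dvd_mul_left _ _) (h' _ (by simp)),
        mul_mem_ZZ_of_dvd (dvd_mul_left _ _) (h' _ (by simp))⟩
    · obtain ⟨a, b, c⟩ := h f hf
      exact ⟨mul_mem_ZZ_of_dvd (dvd_mul_right _ _) a, mul_mem_ZZ_of_dvd (dvd_mul_right _ _) b,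
        mul_mem_ZZ_of_dvd (dvd_mul_right _ _) c⟩

/-- A natural number in the class of a positive rational number. -/
theorem nat_class {D : ℚ} (hD : 0 < D) (hns : ¬ IsSquare D) :
    ∃ (q : ℕ) (d : ℚ), d ≠ 0 ∧ (q : ℚ) = D * d ^ 2 ∧ ¬ IsSquare (q : ℤ) := by
  have hden : (D.den : ℚ) ≠ 0 := by exact_mod_cast D.den_ne_zero
  have hnum : 0 < D.num := Rat.num_pos.2 hD
  refine ⟨D.num.natAbs * D.den, D.den, hden, ?_, ?_⟩
  · have h1 : (D.num.natAbs : ℚ) = D.num := by rw [Nat.cast_natAbs, abs_of_pos hnum]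
    have h2 := Rat.mul_den_eq_num D
    rw [Nat.cast_mul, h1, ← h2]; ring
  · intro hsq
    apply hns
    have h1 : IsSquare (((D.num.natAbs * D.den : ℕ) : ℤ) : ℚ) := by
      obtain ⟨r, hr⟩ := hsq
      exact ⟨r, by rw [hr]; push_cast; ring⟩
    obtain ⟨r, hr⟩ := h1
    refine ⟨r / D.den, ?_⟩
    have h2 : ((D.num.natAbs : ℤ) : ℚ) = D.num := by
      rw [Int.natAbs_of_nonneg hnum.le]
    have h3 := Rat.mul_den_eq_num D
    push_cast at hr h2
    rw [h2, ← h3] at hr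
    field_simp
    linear_combination hr

/-- Signs of the values of a form. -/
theorem ite_pair {a b : ℚ} {p m : ℤ} (h : a * b < 0) :
    (if 0 < a then p else m) * (if 0 < b then p else m) = p * m := by
  rcases lt_trichotomy a 0 with h1 | h1 | h1
  · have h2 : 0 < b := pos_of_mul_neg_right h h1.le
    rw [if_neg (not_lt.2 h1.le), if_pos h2, mul_comm]
  · rw [h1, zero_mul] at h; exact absurd h (lt_irrefl _)
  · have h2 : ¬ 0 < b := by
      intro h2; exact absurd (mul_pos h1 h2) (not_lt.2 h.le)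
    rw [if_pos h1, if_neg h2]

theorem ite_same {a b : ℚ} {p m : ℤ} (h : 0 < a * b) :
    (if 0 < a then p else m) = (if 0 < b then p else m) := by
  rcases lt_trichotomy a 0 with h1 | h1 | h1
  · have h2 : ¬ 0 < b := by
      intro h2; exact absurd (mul_neg_of_neg_of_pos h1 h2) (not_lt.2 h.le)
    rw [if_neg (not_lt.2 h1.le), if_neg h2]
  · rw [h1, zero_mul] at h; exact absurd h (lt_irrefl _)
  · have h2 : 0 < b := (mul_pos_iff_of_pos_left h1).1 h
    rw [if_pos h1, if_pos h2]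

/-- Generators on the same side of a hyperbola. -/
theorem same_side (hd : Odd (Module.finrank ℚ K)) {t s : K} (ht : t ∉ (⊥ : IntermediateField ℚ K))
    {α β γ δ ε ζ a b : ℚ}
    (rel : (α : K) * t ^ 2 + β * t * s + γ * s ^ 2 + δ * t + ε * s + ζ = 0) (hαγ : 0 < α * γ)
    (hD : 0 < β ^ 2 - 4 * α * γ) (hns : ¬ IsSquare (β ^ 2 - 4 * α * γ))
    (hΦ : α * (α * b ^ 2 - β * a * b + γ * a ^ 2) < 0) :
    s ∉ (⊥ : IntermediateField ℚ K) ∧ (a : K) * t + b * s ∉ (⊥ : IntermediateField ℚ K) ∧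
    ((α * b : ℚ) : K) * t + ((γ * a : ℚ) : K) * s ∉ (⊥ : IntermediateField ℚ K) ∧
    ∃ D : ℕ, 1 ≤ D ∧ ∃ C : ℚ, 1 ≤ C ∧ ∀ h : ℕ → ℤ, CM h → ∀ x : ℚ, 1 ≤ x →
      ∀ tp tm sp sm up um wp wm : ℤ, Two h D t tp tm x (C * x) → Two h D s sp sm x (C * x) →
        Two h D ((a : K) * t + b * s) up um x (C * x) →
        Two h D (((α * b : ℚ) : K) * t + ((γ * a : ℚ) : K) * s) wp wm x (C * x) →
          (tp * tm) * (sp * sm) = 1 := by
  have hα : α ≠ 0 := by rintro rfl; simp at hαγ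
  have hγ : γ ≠ 0 := by rintro rfl; simp at hαγ
  obtain ⟨Φ, hΦ'⟩ : ∃ Φ, Φ = α * b ^ 2 - β * a * b + γ * a ^ 2 := ⟨_, rfl⟩
  rw [← hΦ'] at hΦ
  have hΦ0 : Φ ≠ 0 := by rintro rfl; simp at hΦ
  obtain ⟨Δ, hΔ⟩ : ∃ Δ, Δ = β ^ 2 - 4 * α * γ := ⟨_, rfl⟩
  rw [← hΔ] at hD hns
  have hΔ0 : Δ ≠ 0 := hD.ne'
  -- the centre
  obtain ⟨t0, ht0⟩ : ∃ x, x = (2 * γ * δ - β * ε) / Δ := ⟨_, rfl⟩
  obtain ⟨s0, hs0⟩ : ∃ x, x = (2 * α * ε - β * δ) / Δ := ⟨_, rfl⟩
  have c1 : 2 * α * t0 + β * s0 = -δ := by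
    rw [ht0, hs0]; field_simp; rw [hΔ]; ring
  have c2 : β * t0 + 2 * γ * s0 = -ε := by
    rw [ht0, hs0]; field_simp; rw [hΔ]; ring
  obtain ⟨c, hc⟩ : ∃ c, c = α * t0 ^ 2 + β * t0 * s0 + γ * s0 ^ 2 - ζ := ⟨_, rfl⟩
  obtain ⟨T, hT⟩ : ∃ T : K, T = t - t0 := ⟨_, rfl⟩
  obtain ⟨S, hS⟩ : ∃ S : K, S = s - s0 := ⟨_, rfl⟩
  have rel' : (α : K) * T ^ 2 + β * T * S + γ * S ^ 2 = c := by
    have c1K := congrArg (fun z : ℚ => (z : K)) c1
    have c2K := congrArg (fun z : ℚ => (z : K)) c2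
    have hcK := congrArg (fun z : ℚ => (z : K)) hc
    push_cast at c1K c2K hcK
    rw [hT, hS, hcK]
    linear_combination rel - t * c1K - s * c2K
  have hTb : T ∉ (⊥ : IntermediateField ℚ K) := by
    intro hm
    obtain ⟨r, hr⟩ := mem_bot_iff.1 hm
    apply ht
    refine mem_bot_iff.2 ⟨r + t0, ?_⟩
    push_cast; rw [hr, hT]; ring
  -- nondegeneracy
  have hc0 : c ≠ 0 := by
    rintro rfl
    have h1 : (2 * (α : K) * T + β * S) ^ 2 = (Δ : K) * S ^ 2 := by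
      rw [hΔ]; push_cast; push_cast at rel'; linear_combination (4 * (α : K)) * rel'
    by_cases hS0 : S = 0
    · rw [hS0] at h1
      have h2 : (2 * (α : K) * T) ^ 2 = 0 := by linear_combination h1
      have h3 : 2 * (α : K) * T = 0 := pow_eq_zero_iff (by norm_num) |>.1 h2
      have hαK : (α : K) ≠ 0 := by exact_mod_cast hα
      have h4 : T = 0 := by
        rcases mul_eq_zero.1 h3 with h5 | h5
        · exact absurd h5 (mul_ne_zero two_ne_zero hαK)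
        · exact h5
      exact hTb (by rw [h4]; exact zero_mem _)
    · apply hns
      apply isSquare_of_isSquare hd (z := (2 * (α : K) * T + β * S) / S)
      rw [div_pow, h1]; field_simp
  -- a form with nonzero value is irrational
  have irr : ∀ l m : ℚ, α * m ^ 2 - β * l * m + γ * l ^ 2 ≠ 0 →
      (l : K) * T + m * S ∉ (⊥ : IntermediateField ℚ K) := by
    intro l m hlm hmem
    obtain ⟨r, hr⟩ := mem_bot_iff.1 hmem
    by_cases hm : m = 0
    · rw [hm] at hr hlm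
      have hl : l ≠ 0 := by rintro rfl; simp at hlm
      have hlK : (l : K) ≠ 0 := by exact_mod_cast hl
      apply hTb
      refine mem_bot_iff.2 ⟨r / l, ?_⟩
      push_cast at hr ⊢
      rw [hr]; field_simp; ring
    · apply hTb
      apply quadratic_bot hd (A := α * m ^ 2 - β * l * m + γ * l ^ 2)
        (B := β * m * r - 2 * γ * l * r) (C := γ * r ^ 2 - c * m ^ 2) hlm
      push_cast
      linear_combination (m : K) ^ 2 * rel' + ((β : K) * m * T + γ * (m * S + r - l * T)) * hr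
  have unshift : ∀ (z : K) (r : ℚ), z - (r : K) ∉ (⊥ : IntermediateField ℚ K) →
      z ∉ (⊥ : IntermediateField ℚ K) := by
    intro z r hz hm
    obtain ⟨k, hk⟩ := mem_bot_iff.1 hm
    exact hz (mem_bot_iff.2 ⟨k - r, by push_cast; rw [hk]⟩)
  have hs : s ∉ (⊥ : IntermediateField ℚ K) := by
    apply unshift s s0
    have := irr 0 1 (by simpa using hα)
    rw [hS] at this
    simpa using this
  have hu : (a : K) * t + b * s ∉ (⊥ : IntermediateField ℚ K) := by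
    apply unshift _ (a * t0 + b * s0)
    have := irr a b (by rw [← hΦ']; exact hΦ0)
    rw [hT, hS] at this
    have e : (a : K) * t + b * s - ((a * t0 + b * s0 : ℚ) : K) = a * (t - t0) + b * (s - s0) := by
      push_cast; ring
    rwa [e]
  have hw : ((α * b : ℚ) : K) * t + ((γ * a : ℚ) : K) * s ∉ (⊥ : IntermediateField ℚ K) := by
    apply unshift _ (α * b * t0 + γ * a * s0)
    have := irr (α * b) (γ * a) (by
      have e : α * (γ * a) ^ 2 - β * (α * b) * (γ * a) + γ * (α * b) ^ 2 = α * γ * Φ := by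
        rw [hΦ']; ring
      rw [e]; exact mul_ne_zero (mul_ne_zero hα hγ) hΦ0)
    rw [hT, hS] at this
    have e : ((α * b : ℚ) : K) * t + ((γ * a : ℚ) : K) * s -
        ((α * b * t0 + γ * a * s0 : ℚ) : K) =
        ((α * b : ℚ) : K) * (t - t0) + ((γ * a : ℚ) : K) * (s - s0) := by
      push_cast; ring
    rwa [e]
  -- a rational point
  obtain ⟨X0, y, hXy⟩ := springer hd (q := Δ) (c := 4 * α * c) hD.le
    (by simp [hα, hc0]) (x := 2 * (α : K) * T + β * S) (y := S) (by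
      rw [hΔ]; push_cast; linear_combination (4 * (α : K)) * rel')
  obtain ⟨x0, hx0⟩ : ∃ x0, x0 = (X0 - β * y) / (2 * α) := ⟨_, rfl⟩
  have hpt : α * x0 ^ 2 + β * x0 * y + γ * y ^ 2 = c := by
    have e : 2 * α * x0 + β * y = X0 := by rw [hx0]; field_simp; ring
    have e2 : 4 * α * (α * x0 ^ 2 + β * x0 * y + γ * y ^ 2) = 4 * α * c := by
      rw [← hXy, ← e, hΔ]; ring
    exact mul_left_cancel₀ (by simp [hα]) e2
  obtain ⟨q, d, hd0, hq, hqs⟩ := nat_class hD hns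
  rw [hΔ] at hq
  obtain ⟨f1, hf1⟩ : ∃ f, f = FF α β γ x0 y d 1 0 t0 := ⟨_, rfl⟩
  obtain ⟨f2, hf2⟩ : ∃ f, f = FF α β γ x0 y d a b (a * t0 + b * s0) := ⟨_, rfl⟩
  obtain ⟨f3, hf3⟩ : ∃ f, f = FF α β γ x0 y d ((a * (α * b - β * a) + α * b * a) / Φ)
    ((a * (-γ * a) + α * b * b) / Φ) s0 := ⟨_, rfl⟩
  obtain ⟨f4, hf4⟩ : ∃ f, f = FF α β γ x0 y d (α * b - β * a) (-γ * a)
    (α * b * t0 + γ * a * s0) := ⟨_, rfl⟩
  have dd : 0 < 4 * d ^ 2 := by positivity
  have d1 : disc q f1 = -(4 * d ^ 2) * (c * γ) := by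
    rw [hf1, disc_FF hpt hq]; ring
  have d2 : disc q f2 = -(4 * d ^ 2) * (c * Φ) := by
    rw [hf2, disc_FF hpt hq, hΦ']; ring
  have d3 : disc q f3 = -(4 * d ^ 2) * (c * α) := by
    rw [hf3, disc_FF hpt hq]
    have e : α * ((a * (-γ * a) + α * b * b) / Φ) ^ 2 -
        β * ((a * (α * b - β * a) + α * b * a) / Φ) * ((a * (-γ * a) + α * b * b) / Φ) +
        γ * ((a * (α * b - β * a) + α * b * a) / Φ) ^ 2 = α := by
      field_simp
      rw [hΦ']; ring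
    rw [e]; ring
  have d4 : disc q f4 = -(4 * d ^ 2) * (c * (α * γ * Φ)) := by
    rw [hf4, disc_FF hpt hq, hΦ']; ring
  obtain ⟨C, hC, hforms⟩ := forms hqs [f1, f2, f3, f4] (by
    intro f hf
    simp only [List.mem_cons, List.not_mem_nil, or_false] at hf
    rcases hf with rfl | rfl | rfl | rfl
    · rw [d1]; exact mul_ne_zero (neg_ne_zero.2 dd.ne') (mul_ne_zero hc0 hγ)
    · rw [d2]; exact mul_ne_zero (neg_ne_zero.2 dd.ne') (mul_ne_zero hc0 hΦ0)
    · rw [d3]; exact mul_ne_zero (neg_ne_zero.2 dd.ne') (mul_ne_zero hc0 hα)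
    · rw [d4]; exact mul_ne_zero (neg_ne_zero.2 dd.ne')
        (mul_ne_zero hc0 (mul_ne_zero (mul_ne_zero hα hγ) hΦ0)))
  obtain ⟨D, hD1, hDl⟩ := common_den_forms [f1, f2, f3, f4]
  refine ⟨hs, hu, hw, D, hD1, C, hC, ?_⟩
  intro h hh x hx tp tm sp sm up um wp wm Ht Hs Hu Hw
  obtain ⟨X, Y, hXY, hF⟩ := hforms x hx
  obtain ⟨A1, B1, E1⟩ := hF f1 (by simp)
  obtain ⟨A2, B2, E2⟩ := hF f2 (by simp)
  obtain ⟨A3, B3, E3⟩ := hF f3 (by simp)
  obtain ⟨A4, B4, E4⟩ := hF f4 (by simp)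
  have lat : ∀ f ∈ [f1, f2, f3, f4], ∀ e₁ e₂ : ℚ, (e₁ = 1 ∨ e₁ = -1) → (e₂ = 1 ∨ e₂ = -1) →
      (D : ℚ) * val f X Y e₁ e₂ ∈ ZZ := by
    intro f hf e₁ e₂ he₁ he₂
    obtain ⟨k1, k2, k3⟩ := hDl f hf
    exact val_lat k1 k2 k3 X Y he₁ he₂
  have hΦsq := H_sq hh hΦ0
  have key : ∀ e₁ e₂ : ℚ, (e₁ = 1 ∨ e₁ = -1) → (e₂ = 1 ∨ e₂ = -1) →
      ((if 0 < val f2 X Y e₁ e₂ then up else um) * (if 0 < val f4 X Y e₁ e₂ then wp else wm) =
        (if 0 < val f1 X Y e₁ e₂ then tp else tm) *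
          (H h Φ * (if 0 < val f3 X Y e₁ e₂ then sp else sm))) ∧
      (if 0 < val f1 X Y e₁ e₂ then tp else tm) * (if 0 < val f1 X Y e₁ e₂ then tp else tm) = 1 ∧
      (if 0 < val f2 X Y e₁ e₂ then up else um) * (if 0 < val f2 X Y e₁ e₂ then up else um) = 1 ∧
      (if 0 < val f3 X Y e₁ e₂ then sp else sm) * (if 0 < val f3 X Y e₁ e₂ then sp else sm) = 1 ∧
      (if 0 < val f4 X Y e₁ e₂ then wp else wm) * (if 0 < val f4 X Y e₁ e₂ then wp else wm) = 1 := by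
    intro e₁ e₂ he₁ he₂
    rw [← Ht.eq (lat f1 (by simp) e₁ e₂ he₁ he₂) (A1 e₁ e₂ he₁ he₂).1 (A1 e₁ e₂ he₁ he₂).2,
      ← Hu.eq (lat f2 (by simp) e₁ e₂ he₁ he₂) (A2 e₁ e₂ he₁ he₂).1 (A2 e₁ e₂ he₁ he₂).2,
      ← Hs.eq (lat f3 (by simp) e₁ e₂ he₁ he₂) (A3 e₁ e₂ he₁ he₂).1 (A3 e₁ e₂ he₁ he₂).2,
      ← Hw.eq (lat f4 (by simp) e₁ e₂ he₁ he₂) (A4 e₁ e₂ he₁ he₂).1 (A4 e₁ e₂ he₁ he₂).2]
    refine ⟨?_, G_sq hh ht _, G_sq hh hu _, G_sq hh hs _, G_sq hh hw _⟩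
    obtain ⟨x', y', hc', hv⟩ := orbit hpt hq hXY he₁ he₂
    have v1 := hv 1 0 t0
    have v2 := hv a b (a * t0 + b * s0)
    have v3 := hv ((a * (α * b - β * a) + α * b * a) / Φ) ((a * (-γ * a) + α * b * b) / Φ) s0
    have v4 := hv (α * b - β * a) (-γ * a) (α * b * t0 + γ * a * s0)
    rw [← hf1] at v1
    rw [← hf2] at v2
    rw [← hf3] at v3
    rw [← hf4] at v4
    have hcK : (α : K) * x' ^ 2 + β * x' * y' + γ * y' ^ 2 = c := by exact_mod_cast hc'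
    have hid := quad_id (a := (a : K)) (b := (b : K)) rel' hcK
    have k3 : (Φ : K) * ((val f3 X Y e₁ e₂ : ℚ) : K) = (a * ((α * b - β * a) * x' - γ * a * y') +
        α * b * (a * x' + b * y')) + Φ * s0 := by
      have : Φ * val f3 X Y e₁ e₂ = (a * ((α * b - β * a) * x' - γ * a * y') +
        α * b * (a * x' + b * y')) + Φ * s0 := by
        rw [v3]; field_simp; ring
      exact_mod_cast this
    have hΦK : (Φ : K) = α * b ^ 2 - β * a * b + γ * a ^ 2 := by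
      rw [hΦ']; push_cast; ring
    have main : (((val f2 X Y e₁ e₂ : ℚ) : K) - ((a : K) * t + b * s)) *
        (((val f4 X Y e₁ e₂ : ℚ) : K) - (((α * b : ℚ) : K) * t + ((γ * a : ℚ) : K) * s)) =
        (((val f1 X Y e₁ e₂ : ℚ) : K) - t) * ((Φ : K) * (((val f3 X Y e₁ e₂ : ℚ) : K) - s)) := by
      have j2 : ((val f2 X Y e₁ e₂ : ℚ) : K) - ((a : K) * t + b * s) =
          (a * x' + b * y') - (a * T + b * S) := by
        rw [v2, hT, hS]; push_cast; ring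
      have j4 : ((val f4 X Y e₁ e₂ : ℚ) : K) - (((α * b : ℚ) : K) * t + ((γ * a : ℚ) : K) * s) =
          ((α * b - β * a) * x' - γ * a * y') - (α * b * T + γ * a * S) := by
        rw [v4, hT, hS]; push_cast; ring
      have j1 : ((val f1 X Y e₁ e₂ : ℚ) : K) - t = x' - T := by
        rw [v1, hT]; push_cast; ring
      have j3 : (Φ : K) * (((val f3 X Y e₁ e₂ : ℚ) : K) - s) =
          (a * ((α * b - β * a) * x' - γ * a * y') + α * b * (a * x' + b * y')) -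
            (α * b ^ 2 - β * a * b + γ * a ^ 2) * S := by
        rw [mul_sub, k3, hS, ← hΦK]; ring
      rw [j2, j4, j1, j3]
      exact hid
    have fin := congrArg (fun z : K => H h (Algebra.norm ℚ z)) main
    rw [H_norm_mul hh (sub_ne_zero_of hu _) (sub_ne_zero_of hw _),
      H_norm_mul hh (sub_ne_zero_of ht _) (mul_ne_zero (by exact_mod_cast hΦ0)
        (sub_ne_zero_of hs _)),
      H_norm_mul hh (by exact_mod_cast hΦ0) (sub_ne_zero_of hs _), H_norm_q hd hh hΦ0] at fin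
    exact fin
  obtain ⟨r1, a1, b1, g1, k1⟩ := key 1 1 (Or.inl rfl) (Or.inl rfl)
  obtain ⟨r2, a2, b2, g2, k2⟩ := key (-1) 1 (Or.inr rfl) (Or.inl rfl)
  obtain ⟨r3, a3, b3, g3, k3⟩ := key 1 (-1) (Or.inl rfl) (Or.inr rfl)
  have flip1 : (up * um) * (wp * wm) = (tp * tm) * (sp * sm) := by
    have p1 := ite_pair (p := tp) (m := tm) (B1 1 (Or.inl rfl))
    have p2 := ite_pair (p := up) (m := um) (B2 1 (Or.inl rfl))
    have p3 := ite_pair (p := sp) (m := sm) (B3 1 (Or.inl rfl))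
    have p4 := ite_pair (p := wp) (m := wm) (B4 1 (Or.inl rfl))
    rw [← p1, ← p2, ← p3, ← p4]
    have := congrArg₂ (· * ·) r1 r2
    linear_combination this + (if 0 < val f1 X Y 1 1 then tp else tm) *
      (if 0 < val f1 X Y (-1) 1 then tp else tm) * ((if 0 < val f3 X Y 1 1 then sp else sm) *
      (if 0 < val f3 X Y (-1) 1 then sp else sm)) * hΦsq
  have hcases : 0 < c * γ ∨ c * γ < 0 := by
    rcases lt_trichotomy (c * γ) 0 with h1 | h1 | h1
    · exact Or.inr h1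
    · exact absurd h1 (mul_ne_zero hc0 hγ)
    · exact Or.inl h1
  have e1 := E1 1 (Or.inl rfl)
  have e2 := E2 1 (Or.inl rfl)
  have e3 := E3 1 (Or.inl rfl)
  have e4 := E4 1 (Or.inl rfl)
  rw [d1] at e1
  rw [d2] at e2
  rw [d3] at e3
  rw [d4] at e4
  have hα2 : 0 < α ^ 2 := by positivity
  have hγ2 : 0 < γ ^ 2 := by positivity
  have e : c * α * γ ^ 2 = (c * γ) * (α * γ) := by ring
  have e' : c * Φ * α ^ 2 = (c * α) * (α * Φ) := by ring
  have e'' : c * (α * γ * Φ) = (c * Φ) * (α * γ) := by ring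
  rcases hcases with hcγ | hcγ
  · -- `t`, `s` change sign
    have hcα : 0 < c * α := by
      by_contra h1
      have h2 : c * α * γ ^ 2 ≤ 0 := mul_nonpos_of_nonpos_of_nonneg (not_lt.1 h1) hγ2.le
      rw [e] at h2
      exact absurd (mul_pos hcγ hαγ) (not_lt.2 h2)
    have hcΦ : c * Φ < 0 := by
      by_contra h1
      have h2 : 0 ≤ c * Φ * α ^ 2 := mul_nonneg (not_lt.1 h1) hα2.le
      rw [e'] at h2
      exact absurd (mul_neg_of_pos_of_neg hcα hΦ) (not_lt.2 h2)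
    have hc4 : c * (α * γ * Φ) < 0 := by rw [e'']; exact mul_neg_of_neg_of_pos hcΦ hαγ
    have s1 : val f1 X Y 1 1 * val f1 X Y 1 (-1) < 0 := by
      by_contra h1
      have h2 := mul_nonneg (mul_nonneg dd.le hcγ.le) (not_lt.1 h1)
      linarith
    have s3 : val f3 X Y 1 1 * val f3 X Y 1 (-1) < 0 := by
      by_contra h1
      have h2 := mul_nonneg (mul_nonneg dd.le hcα.le) (not_lt.1 h1)
      linarith
    have s2 : 0 < val f2 X Y 1 1 * val f2 X Y 1 (-1) := by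
      by_contra h1
      have h2 := mul_nonneg_of_nonpos_of_nonpos (mul_nonpos_of_nonneg_of_nonpos dd.le hcΦ.le)
        (not_lt.1 h1)
      linarith
    have s4 : 0 < val f4 X Y 1 1 * val f4 X Y 1 (-1) := by
      by_contra h1
      have h2 := mul_nonneg_of_nonpos_of_nonpos (mul_nonpos_of_nonneg_of_nonpos dd.le hc4.le)
        (not_lt.1 h1)
      linarith
    rw [← ite_pair (p := tp) (m := tm) s1, ← ite_pair (p := sp) (m := sm) s3]
    rw [← ite_same (p := up) (m := um) s2, ← ite_same (p := wp) (m := wm) s4] at r3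
    have := congrArg₂ (· * ·) r1 r3
    linear_combination -this - (if 0 < val f1 X Y 1 1 then tp else tm) *
      (if 0 < val f1 X Y 1 (-1) then tp else tm) * ((if 0 < val f3 X Y 1 1 then sp else sm) *
      (if 0 < val f3 X Y 1 (-1) then sp else sm)) * hΦsq + b1 *
      ((if 0 < val f4 X Y 1 1 then wp else wm) * (if 0 < val f4 X Y 1 1 then wp else wm)) + k1
  · have hcα : c * α < 0 := by
      by_contra h1
      have h2 : 0 ≤ c * α * γ ^ 2 := mul_nonneg (not_lt.1 h1) hγ2.le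
      rw [e] at h2
      exact absurd (mul_neg_of_neg_of_pos hcγ hαγ) (not_lt.2 h2)
    have hcΦ : 0 < c * Φ := by
      by_contra h1
      have h2 : c * Φ * α ^ 2 ≤ 0 := mul_nonpos_of_nonpos_of_nonneg (not_lt.1 h1) hα2.le
      rw [e'] at h2
      exact absurd (mul_pos_of_neg_of_neg hcα hΦ) (not_lt.2 h2)
    have hc4 : 0 < c * (α * γ * Φ) := by rw [e'']; exact mul_pos hcΦ hαγ
    have s1 : 0 < val f1 X Y 1 1 * val f1 X Y 1 (-1) := by
      by_contra h1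
      have h2 := mul_nonneg_of_nonpos_of_nonpos (mul_nonpos_of_nonneg_of_nonpos dd.le hcγ.le)
        (not_lt.1 h1)
      linarith
    have s3 : 0 < val f3 X Y 1 1 * val f3 X Y 1 (-1) := by
      by_contra h1
      have h2 := mul_nonneg_of_nonpos_of_nonpos (mul_nonpos_of_nonneg_of_nonpos dd.le hcα.le)
        (not_lt.1 h1)
      linarith
    have s2 : val f2 X Y 1 1 * val f2 X Y 1 (-1) < 0 := by
      by_contra h1
      have h2 := mul_nonneg (mul_nonneg dd.le hcΦ.le) (not_lt.1 h1)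
      linarith
    have s4 : val f4 X Y 1 1 * val f4 X Y 1 (-1) < 0 := by
      by_contra h1
      have h2 := mul_nonneg (mul_nonneg dd.le hc4.le) (not_lt.1 h1)
      linarith
    rw [← flip1, ← ite_pair (p := up) (m := um) s2, ← ite_pair (p := wp) (m := wm) s4]
    rw [← ite_same (p := tp) (m := tm) s1, ← ite_same (p := sp) (m := sm) s3] at r3
    have := congrArg₂ (· * ·) r1 r3
    linear_combination this + (if 0 < val f1 X Y 1 1 then tp else tm) *
      (if 0 < val f1 X Y 1 1 then tp else tm) * ((if 0 < val f3 X Y 1 1 then sp else sm) *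
      (if 0 < val f3 X Y 1 1 then sp else sm)) * hΦsq + a1 *
      ((if 0 < val f3 X Y 1 1 then sp else sm) * (if 0 < val f3 X Y 1 1 then sp else sm)) + g1

end Pool.Agent.Lib_helper3.QUI
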