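import Mathlib
import Pool.Agent.Lib_helper3.QUI.Quad

/-!
Number fields of odd degree: generators along conjugate diameters of a hyperbola.
-/

namespace Pool.Agent.Lib_helper3.QUI

open Pool.Agent.Lib_helper11.CUB

variable {K : Type*} [Field K] [NumberField K]

theorem conj_pair (hd : Odd (Module.finrank ℚ K)) {t s : K} (ht : t ∉ (⊥ : IntermediateField ℚ K))
    {q a b c : ℚ} (hq : 0 < q) (hns : ¬ IsSquare q)
    (rel : t ^ 2 + (a : K) * t = q * s ^ 2 + b * s + c) :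
    ∃ D : ℕ, 1 ≤ D ∧ ∃ C : ℚ, 1 ≤ C ∧ ∀ h : ℕ → ℤ, CM h → ∀ x : ℚ, 1 ≤ x →
      ∀ tp tm sp sm : ℤ, Two h D t tp tm x (C * x) → Two h D s sp sm x (C * x) →
          tp * tm = H h q * (sp * sm) := by
  have hq0 : q ≠ 0 := hq.ne'
  have hqK : (q : K) ≠ 0 := by exact_mod_cast hq0
  obtain ⟨T, hT⟩ : ∃ T : K, T = t + (a / 2 : ℚ) := ⟨_, rfl⟩
  obtain ⟨S, hS⟩ : ∃ S : K, S = s + (b / (2 * q) : ℚ) := ⟨_, rfl⟩
  obtain ⟨c', hc'⟩ : ∃ c' : ℚ, c' = c + a ^ 2 / 4 - b ^ 2 / (4 * q) := ⟨_, rfl⟩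
  have rel' : T ^ 2 - (q : K) * S ^ 2 = c' := by
    rw [hT, hS, hc']; push_cast; field_simp; linear_combination (16 * (q : K)) * rel
  have unshift : ∀ (z : K) (r : ℚ), z + (r : K) ∈ (⊥ : IntermediateField ℚ K) →
      z ∈ (⊥ : IntermediateField ℚ K) := by
    intro z r hm
    obtain ⟨k, hk⟩ := mem_bot_iff.1 hm
    exact mem_bot_iff.2 ⟨k - r, by push_cast; rw [hk]; ring⟩
  have hTb : T ∉ (⊥ : IntermediateField ℚ K) := fun hm => ht (unshift t (a / 2) (hT ▸ hm))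
  have hs : s ∉ (⊥ : IntermediateField ℚ K) := by
    intro hm
    obtain ⟨r, hr⟩ := mem_bot_iff.1 hm
    apply hTb
    apply quadratic_bot hd (A := 1) (B := 0) (C := -(q * (r + b / (2 * q)) ^ 2 + c')) one_ne_zero
    rw [hS, ← hr] at rel'
    push_cast at rel' ⊢
    linear_combination rel'
  have hc0 : c' ≠ 0 := by
    rintro h0
    rw [h0] at rel'
    by_cases hS0 : S = 0
    · rw [hS0] at rel'
      have h1 : T ^ 2 = 0 := by push_cast at rel'; linear_combination rel'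
      have h2 : T = 0 := pow_eq_zero_iff (by norm_num) |>.1 h1
      exact hTb (by rw [h2]; exact zero_mem _)
    · apply hns
      apply isSquare_of_isSquare hd (z := T / S)
      push_cast at rel'
      rw [div_pow]; field_simp; linear_combination rel'
  obtain ⟨x0, y0, hxy⟩ := springer hd hq.le hc0 rel'
  obtain ⟨Q, d, hd0, hQ, hQs⟩ := nat_class hq hns
  obtain ⟨f1, hf1⟩ : ∃ f : ℚ × ℚ × ℚ, f = (x0, q * y0 * d, -(a / 2)) := ⟨_, rfl⟩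
  obtain ⟨f2, hf2⟩ : ∃ f : ℚ × ℚ × ℚ, f = (y0, x0 * d, -(b / (2 * q))) := ⟨_, rfl⟩
  have d1 : disc Q f1 = q * d ^ 2 * c' := by
    rw [hf1]; simp only [disc]; rw [hQ, ← hxy]; ring
  have d2 : disc Q f2 = -(d ^ 2 * c') := by
    rw [hf2]; simp only [disc]; rw [hQ, ← hxy]; ring
  have hd2 : d ^ 2 ≠ 0 := pow_ne_zero _ hd0
  obtain ⟨C, hC, hforms⟩ := forms hQs [f1, f2] (by
    intro f hf
    simp only [List.mem_cons, List.not_mem_nil, or_false] at hf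
    rcases hf with rfl | rfl
    · rw [d1]; exact mul_ne_zero (mul_ne_zero hq0 hd2) hc0
    · rw [d2]; exact neg_ne_zero.2 (mul_ne_zero hd2 hc0))
  obtain ⟨D, hD1, hDl⟩ := common_den_forms [f1, f2]
  refine ⟨D, hD1, C, hC, ?_⟩
  intro h hh x hx tp tm sp sm Ht Hs
  obtain ⟨X, Y, hXY, hF⟩ := hforms x hx
  obtain ⟨A1, B1, -⟩ := hF f1 (by simp)
  obtain ⟨A2, B2, -⟩ := hF f2 (by simp)
  have lat : ∀ f ∈ [f1, f2], ∀ e₁ e₂ : ℚ, (e₁ = 1 ∨ e₁ = -1) → (e₂ = 1 ∨ e₂ = -1) →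
      (D : ℚ) * val f X Y e₁ e₂ ∈ ZZ := by
    intro f hf e₁ e₂ he₁ he₂
    obtain ⟨k1, k2, k3⟩ := hDl f hf
    exact val_lat k1 k2 k3 X Y he₁ he₂
  have o1 : (1 : ℚ) = 1 ∨ (1 : ℚ) = -1 := Or.inl rfl
  have o2 : (-1 : ℚ) = 1 ∨ (-1 : ℚ) = -1 := Or.inr rfl
  rw [← ite_pair (p := tp) (m := tm) (B1 1 o1), ← ite_pair (p := sp) (m := sm) (B2 1 o1),
    ← Ht.eq (lat f1 (by simp) 1 1 o1 o1) (A1 1 1 o1 o1).1 (A1 1 1 o1 o1).2,
    ← Ht.eq (lat f1 (by simp) (-1) 1 o2 o1) (A1 (-1) 1 o2 o1).1 (A1 (-1) 1 o2 o1).2,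
    ← Hs.eq (lat f2 (by simp) 1 1 o1 o1) (A2 1 1 o1 o1).1 (A2 1 1 o1 o1).2,
    ← Hs.eq (lat f2 (by simp) (-1) 1 o2 o1) (A2 (-1) 1 o2 o1).1 (A2 (-1) 1 o2 o1).2]
  have hrat : (x0 * X + q * y0 * d * Y) ^ 2 - q * (y0 * X + x0 * d * Y) ^ 2 = c' := by
    rw [hQ] at hXY
    have : (x0 * X + q * y0 * d * Y) ^ 2 - q * (y0 * X + x0 * d * Y) ^ 2 =
      (x0 ^ 2 - q * y0 ^ 2) * ((X : ℚ) ^ 2 - q * d ^ 2 * (Y : ℚ) ^ 2) := by ring
    rw [this, hxy, hXY, mul_one]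
  have hratK : ((x0 : K) * X + q * y0 * d * Y) ^ 2 - q * (y0 * X + x0 * d * Y) ^ 2 = c' := by
    exact_mod_cast hrat
  have v1 : ((val f1 X Y 1 1 : ℚ) : K) - t = (x0 * X + q * y0 * d * Y) - T := by
    rw [hf1, hT]; simp only [val]; push_cast; ring
  have v2 : ((val f1 X Y (-1) 1 : ℚ) : K) - t = -((x0 * X + q * y0 * d * Y) + T) := by
    rw [hf1, hT]; simp only [val]; push_cast; ring
  have v3 : ((val f2 X Y 1 1 : ℚ) : K) - s = (y0 * X + x0 * d * Y) - S := by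
    rw [hf2, hS]; simp only [val]; push_cast; ring
  have v4 : ((val f2 X Y (-1) 1 : ℚ) : K) - s = -((y0 * X + x0 * d * Y) + S) := by
    rw [hf2, hS]; simp only [val]; push_cast; ring
  have main : (((val f1 X Y 1 1 : ℚ) : K) - t) * (((val f1 X Y (-1) 1 : ℚ) : K) - t) =
      (q : K) * ((((val f2 X Y 1 1 : ℚ) : K) - s) * (((val f2 X Y (-1) 1 : ℚ) : K) - s)) := by
    rw [v1, v2, v3, v4]
    linear_combination rel' - hratK
  have fin := congrArg (fun z : K => H h (Algebra.norm ℚ z)) main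
  rw [H_norm_mul hh (sub_ne_zero_of ht _) (sub_ne_zero_of ht _),
    H_norm_mul hh hqK (mul_ne_zero (sub_ne_zero_of hs _) (sub_ne_zero_of hs _)),
    H_norm_mul hh (sub_ne_zero_of hs _) (sub_ne_zero_of hs _), H_norm_q hd hh hq0] at fin
  exact fin

end Pool.Agent.Lib_helper3.QUI
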