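import Mathlib
import Pool.Agent.Lib_helper3.QUI.Conj

/-!
Number fields of odd degree: from signs of norms to values of minimal polynomials.
-/

namespace Pool.Agent.Lib_helper3.QUI

open Pool.Agent.Lib_helper11.CUB Polynomial

variable {K : Type*} [Field K] [NumberField K]

/-- `N(x - u)` is the value of the minimal polynomial of a generator `u`. -/
theorem norm_sub_eq' {u : K} (hdeg : (minpoly ℚ u).natDegree = Module.finrank ℚ K) (x : ℚ) :
    Algebra.norm ℚ ((x : K) - u) = (minpoly ℚ u).eval x := by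
  have e1 : Algebra.norm ℚ ((x : K) - u) = ((Algebra.lmul ℚ K u).charpoly).eval x := by
    rw [LinearMap.eval_charpoly, Algebra.norm_apply]
    congr 1
    ext z
    simp [Algebra.smul_def]
  rw [e1]
  congr 1
  have hroot : aeval u (Algebra.lmul ℚ K u).charpoly = 0 := by
    have h1 := LinearMap.aeval_self_charpoly (Algebra.lmul ℚ K u)
    have h2 : Algebra.lmul ℚ K (aeval u (Algebra.lmul ℚ K u).charpoly) = 0 := by
      rw [← Polynomial.aeval_algHom_apply]
      exact h1
    have h3 := congrArg (fun f : Module.End ℚ K => f 1) h2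
    simpa using h3
  have hdvd := minpoly.dvd ℚ u hroot
  have hm := minpoly.monic (Algebra.IsIntegral.isIntegral (R := ℚ) u)
  have hd : ((Algebra.lmul ℚ K u).charpoly).natDegree = Module.finrank ℚ K := by
    rw [LinearMap.charpoly_natDegree]
  exact (eq_of_monic_of_dvd_of_natDegree_le hm (LinearMap.charpoly_monic _) hdvd
    (by rw [hd, hdeg]))

theorem G_int' {h : ℕ → ℤ} (hh : CM h) {u : K}
    (hdeg : (minpoly ℚ u).natDegree = Module.finrank ℚ K) (hint : IsIntegral ℤ u) (n : ℤ) :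
    G h u n = h ((minpoly ℤ u).eval n).natAbs := by
  unfold G
  rw [norm_sub_eq' hdeg, minpoly.isIntegrallyClosed_eq_field_fractions' ℚ hint, eval_map,
    algebraMap_int_eq, eval₂_at_intCast]
  simp only [eq_intCast]
  exact H_int hh _

/-- The degree of a rational multiple. -/
theorem deg_mul {u : K} (hdeg : (minpoly ℚ u).natDegree = Module.finrank ℚ K) {r : ℚ}
    (hr : r ≠ 0) : (minpoly ℚ ((r : K) * u)).natDegree = Module.finrank ℚ K := by
  have hrK : (r : K) ≠ 0 := by exact_mod_cast hr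
  have key : IntermediateField.adjoin ℚ {(r : K) * u} = IntermediateField.adjoin ℚ {u} := by
    apply le_antisymm
    · rw [IntermediateField.adjoin_simple_le_iff]
      have h2 : (r : K) ∈ IntermediateField.adjoin ℚ {u} := by
        have := (IntermediateField.adjoin ℚ {u}).algebraMap_mem r
        simpa using this
      exact mul_mem h2 (IntermediateField.mem_adjoin_simple_self ℚ u)
    · rw [IntermediateField.adjoin_simple_le_iff]
      have h2 : ((r⁻¹ : ℚ) : K) ∈ IntermediateField.adjoin ℚ {(r : K) * u} := by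
        have := (IntermediateField.adjoin ℚ {(r : K) * u}).algebraMap_mem r⁻¹
        simpa using this
      have h3 : u = ((r⁻¹ : ℚ) : K) * ((r : K) * u) := by push_cast; field_simp
      have h4 := mul_mem h2 (IntermediateField.mem_adjoin_simple_self ℚ ((r : K) * u))
      rwa [← h3] at h4
  rw [← IntermediateField.adjoin.finrank (Algebra.IsIntegral.isIntegral u)] at hdeg
  rw [← IntermediateField.adjoin.finrank (Algebra.IsIntegral.isIntegral _), key, hdeg]

theorem bot_of_deg {u : K} (hdeg : (minpoly ℚ u).natDegree = Module.finrank ℚ K)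
    (h1 : 1 < Module.finrank ℚ K) : u ∉ (⊥ : IntermediateField ℚ K) := by
  intro hm
  rw [← IntermediateField.adjoin.finrank (Algebra.IsIntegral.isIntegral u)] at hdeg
  have h2 : IntermediateField.adjoin ℚ {u} = (⊥ : IntermediateField ℚ K) :=
    IntermediateField.adjoin_simple_eq_bot_iff.2 hm
  rw [h2, IntermediateField.finrank_bot] at hdeg
  omega

theorem G_vals' {h : ℕ → ℤ} (hh : CM h) {u : K} (hu : u ∉ (⊥ : IntermediateField ℚ K)) (x : ℚ) :
    G h u x = 1 ∨ G h u x = -1 := H_vals hh (norm_ne (sub_ne_zero_of hu x))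

/-- Values of the minimal polynomial of `e v z`. -/
theorem G_scaled' (hd : Odd (Module.finrank ℚ K)) {h : ℕ → ℤ} (hh : CM h) {z : K}
    (hz : z ∉ (⊥ : IntermediateField ℚ K))
    (hdeg : (minpoly ℚ z).natDegree = Module.finrank ℚ K) {v : ℕ} (hv : 1 ≤ v)
    (hint : IsIntegral ℤ ((v : K) * z)) {e : ℤ} (he : e = 1 ∨ e = -1) {k : ℚ} {n : ℤ}
    (hn : (n : ℚ) = v * (e * k)) :
    h ((minpoly ℤ (((e * v : ℤ) : K) * z)).eval n).natAbs = h v * G h z k := by
  have hvq : (v : ℚ) ≠ 0 := by exact_mod_cast (by omega : v ≠ 0)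
  have hev : ((e * v : ℤ) : ℚ) ≠ 0 := by
    push_cast
    rcases he with rfl | rfl <;> simp [hvq]
  have hint' : IsIntegral ℤ (((e * v : ℤ) : K) * z) := by
    have : ((e * v : ℤ) : K) * z = (e : K) * ((v : K) * z) := by push_cast; ring
    rw [this]
    rcases he with rfl | rfl
    · simpa using hint
    · simpa using hint.neg
  have hdeg' := deg_mul hdeg hev
  rw [Rat.cast_intCast] at hdeg'
  rw [← G_int' hh hdeg' hint' n]
  have e2 : e * e = 1 := by rcases he with rfl | rfl <;> norm_num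
  have e3 : (e : ℚ) * e = 1 := by exact_mod_cast e2
  have hs := G_scale' hd hh hz hev k
  rw [Rat.cast_intCast] at hs
  have h4 : (((e * v : ℤ) : ℚ)) * k = n := by rw [hn]; push_cast; ring
  rw [h4] at hs
  rw [hs]
  congr 1
  rw [H_int hh, Int.natAbs_mul]
  rcases he with rfl | rfl <;> simp

/-- A sign is not constant at one of the two ends: values of the minimal polynomial. -/
theorem one_end (hd : Odd (Module.finrank ℚ K)) {h : ℕ → ℤ} (hh : CM h) {z : K}
    (hz : z ∉ (⊥ : IntermediateField ℚ K))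
    (hdeg : (minpoly ℚ z).natDegree = Module.finrank ℚ K) {v D : ℕ} (hv : 1 ≤ v) (hD : D ∣ v)
    (hint : IsIntegral ℤ ((v : K) * z)) {x : ℕ} (hx : 1 ≤ x) {X : ℚ}
    (hne : ¬ ∃ zp zm : ℤ, Two h D z zp zm x X) :
    ∃ e : ℤ, (e = 1 ∨ e = -1) ∧ ∀ s : ℤ, (s = 1 ∨ s = -1) → ∃ n : ℕ, x ≤ n ∧ (n : ℚ) ≤ v * X ∧
      h ((minpoly ℤ (((e * v : ℤ) : K) * z)).eval (n : ℤ)).natAbs = s := by
  by_contra hcon
  push Not at hcon
  obtain ⟨sp, hsp, Hp⟩ := hcon 1 (Or.inl rfl)
  obtain ⟨sm, hsm, Hm⟩ := hcon (-1) (Or.inr rfl)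
  apply hne
  have hvv := hh.values v hv
  have hvq : (1 : ℚ) ≤ v := by exact_mod_cast hv
  have hxq : (1 : ℚ) ≤ x := by exact_mod_cast hx
  have main : ∀ (e : ℤ) (s : ℤ), (e = 1 ∨ e = -1) → (s = 1 ∨ s = -1) →
      (∀ n : ℕ, x ≤ n → (n : ℚ) ≤ v * X →
        h ((minpoly ℤ (((e * v : ℤ) : K) * z)).eval (n : ℤ)).natAbs ≠ s) →
      ∀ k : ℚ, (D : ℚ) * k ∈ ZZ → (x : ℚ) ≤ e * k → e * k ≤ X → G h z k = -(h v * s) := by
    intro e s he hs Hs k hk h1 h2
    obtain ⟨m, hm⟩ := mem_ZZ.1 (mul_mem_ZZ_of_dvd hD hk)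
    have hm' : ((e * m : ℤ) : ℚ) = v * (e * k) := by push_cast; rw [hm]; ring
    have hmx : (x : ℚ) ≤ ((e * m : ℤ) : ℚ) := by rw [hm']; nlinarith
    have hm0 : 0 ≤ e * m := by
      have : (0 : ℚ) ≤ ((e * m : ℤ) : ℚ) := by linarith
      exact_mod_cast this
    obtain ⟨n, hn⟩ := Int.eq_ofNat_of_zero_le hm0
    rw [hn] at hm' hmx
    have h3 := Hs n (by exact_mod_cast hmx) (by
      have : ((n : ℤ) : ℚ) = v * (e * k) := hm'
      rw [Int.cast_natCast] at this
      rw [this]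
      exact mul_le_mul_of_nonneg_left h2 (by linarith))
    rw [G_scaled' hd hh hz hdeg hv hint he hm'] at h3
    rcases G_vals' hh hz k with g | g <;> rcases hvv with g' | g' <;> rcases hs with g'' | g'' <;>
      rw [g, g', g''] at h3 <;> rw [g, g', g''] <;>
      first | rfl | (exfalso; exact h3 (by norm_num))
  refine ⟨-(h v * sp), -(h v * sm), fun k hk => ⟨fun h1 h2 => ?_, fun h1 h2 => ?_⟩⟩
  · exact main 1 sp (Or.inl rfl) hsp Hp k hk (by push_cast; linarith) (by push_cast; linarith)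
  · exact main (-1) sm (Or.inr rfl) hsm Hm k hk (by push_cast; linarith) (by push_cast; linarith)

/-- Common denominators for a list of elements. -/
theorem common_int (L : List K) : ∃ m : ℕ, 1 ≤ m ∧ ∀ z ∈ L, IsIntegral ℤ ((m : K) * z) := by
  induction L with
  | nil => exact ⟨1, le_rfl, by simp⟩
  | cons y L ih =>
    obtain ⟨m, hm, h⟩ := ih
    obtain ⟨k, hk, hk'⟩ : ∃ k : ℕ, 1 ≤ k ∧ IsIntegral ℤ ((k : K) * y) := by
      have halg : IsAlgebraic ℤ y := (IsFractionRing.isAlgebraic_iff ℤ ℚ K).2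
        (Algebra.IsAlgebraic.isAlgebraic y)
      obtain ⟨c, hc, hcy⟩ := halg.exists_integral_multiple
      refine ⟨c.natAbs, Int.natAbs_pos.2 hc, ?_⟩
      have e : c • y = (c : K) * y := by simp
      rw [e] at hcy
      rcases Int.natAbs_eq c with h1 | h1
      · rw [h1] at hcy; simpa using hcy
      · rw [h1] at hcy
        have := hcy.neg
        simpa using this
    have natInt : ∀ k : ℕ, IsIntegral ℤ (k : K) := fun k => by
      have := isIntegral_algebraMap (R := ℤ) (A := K) (x := (k : ℤ))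
      simpa using this
    refine ⟨m * k, Nat.mul_pos hm hk, fun z hz => ?_⟩
    rcases List.mem_cons.1 hz with rfl | hz
    · have e : ((m * k : ℕ) : K) * z = (m : K) * ((k : K) * z) := by push_cast; ring
      rw [e]; exact (natInt m).mul hk'
    · have e : ((m * k : ℕ) : K) * z = (k : K) * ((m : K) * z) := by push_cast; ring
      rw [e]; exact (natInt k).mul (h z hz)

/-- Windows: from a list of generators whose signs are not all constant at every scale. -/
theorem windows (hd : Odd (Module.finrank ℚ K)) (h1 : 1 < Module.finrank ℚ K) {L : List K}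
    (hL : ∀ z ∈ L, (minpoly ℚ z).natDegree = Module.finrank ℚ K) {P : (ℕ → ℤ) → Prop} {D : ℕ}
    (hD : 1 ≤ D) {C : ℚ}
    (core : ∀ h : ℕ → ℤ, CM h → P h → ∀ x : ℚ, 1 ≤ x →
      ¬ ∀ z ∈ L, ∃ zp zm : ℤ, Two h D z zp zm x (C * x)) :
    ∃ m : ℕ, 1 ≤ m ∧ ∀ v : ℕ, 1 ≤ v → m ∣ v → (∀ z ∈ L, IsIntegral ℤ ((v : K) * z)) ∧
      ∃ C' : ℕ, ∀ h : ℕ → ℤ, CM h → P h → ∀ x : ℕ, 1 ≤ x → ∃ z ∈ L, ∃ e : ℤ, (e = 1 ∨ e = -1) ∧
        ∀ s : ℤ, (s = 1 ∨ s = -1) → ∃ n : ℕ, x ≤ n ∧ n ≤ C' * x ∧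
          h ((minpoly ℤ (((e * v : ℤ) : K) * z)).eval (n : ℤ)).natAbs = s := by
  obtain ⟨m, hm, hmL⟩ := common_int L
  refine ⟨D * m, Nat.mul_pos hD hm, fun v hv hmv => ?_⟩
  have hDv : D ∣ v := (dvd_mul_right _ _).trans hmv
  have hint : ∀ z ∈ L, IsIntegral ℤ ((v : K) * z) := by
    intro z hz
    obtain ⟨k, rfl⟩ := (dvd_mul_left _ _).trans hmv
    have natInt : IsIntegral ℤ (k : K) := by
      have := isIntegral_algebraMap (R := ℤ) (A := K) (x := (k : ℤ))
      simpa using this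
    have e : ((m * k : ℕ) : K) * z = (k : K) * ((m : K) * z) := by push_cast; ring
    rw [e]; exact natInt.mul (hmL z hz)
  refine ⟨hint, ?_⟩
  obtain ⟨C', hC'⟩ := exists_nat_ge ((v : ℚ) * C)
  refine ⟨C', fun h hh hP x hx => ?_⟩
  have hcx := core h hh hP x (by exact_mod_cast hx)
  push Not at hcx
  obtain ⟨z, hz, hne⟩ := hcx
  obtain ⟨e, he, H⟩ := one_end hd hh (bot_of_deg (hL z hz) h1) (hL z hz) hv hDv (hint z hz) hx
    (X := C * x) (by push Not; exact hne)
  refine ⟨z, hz, e, he, fun s hs => ?_⟩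
  obtain ⟨n, h2, h3, h4⟩ := H s hs
  refine ⟨n, h2, ?_, h4⟩
  have h5 : (n : ℚ) ≤ ((C' * x : ℕ) : ℚ) := by
    refine h3.trans ?_
    push_cast
    rw [← mul_assoc]
    exact mul_le_mul_of_nonneg_right hC' (by positivity)
  exact_mod_cast h5

end Pool.Agent.Lib_helper3.QUI
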