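import Mathlib
import Pool.Agent.Lib_helper3.QUI.Bridge
import Pool.Agent.Lib_helper65.QUI.Tri

/-!
Number fields of degree five.
-/

namespace Pool.Agent.Lib_helper3.QUI

open Pool.Agent.Lib_helper11.CUB Polynomial
open Pool.Agent.Lib_helper65.QUI (Near Edge triangle)

variable {K : Type*} [Field K] [NumberField K]

theorem Two.mono {h : ℕ → ℤ} {D E : ℕ} {u : K} {εp εm : ℤ} {x X x' X' : ℚ} (hDE : D ∣ E)
    (h1 : x ≤ x') (h2 : X' ≤ X) (H : Two h E u εp εm x X) : Two h D u εp εm x' X' :=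
  fun n hn => ⟨fun a b => (H n (mul_mem_ZZ_of_dvd hDE hn)).1 (h1.trans a) (b.trans h2),
    fun a b => (H n (mul_mem_ZZ_of_dvd hDE hn)).2 (h1.trans a) (b.trans h2)⟩

/-- The signs along the elements of the list are not all constant at any scale. -/
def NC (P : (ℕ → ℤ) → Prop) (L : List K) : Prop :=
  ∃ D : ℕ, 1 ≤ D ∧ ∃ C : ℚ, 1 ≤ C ∧ ∀ h : ℕ → ℤ, CM h → P h → ∀ x : ℚ, 1 ≤ x →
    ¬ ∀ z ∈ L, ∃ zp zm : ℤ, Two h D z zp zm x (C * x)

/-- Scaling of the elements. -/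
theorem NC.scale (hd : Odd (Module.finrank ℚ K)) {P : (ℕ → ℤ) → Prop} {L L' : List K}
    (hNC : NC P L)
    (hL : ∀ z ∈ L, ∃ z' ∈ L', z' ∉ (⊥ : IntermediateField ℚ K) ∧ ∃ r : ℚ, r ≠ 0 ∧ z = r * z') :
    NC P L' := by
  obtain ⟨D, hD, C, hC, hNC⟩ := hNC
  -- bounds for the factors
  have main : ∃ (κ : ℚ) (E : ℕ), 1 ≤ κ ∧ 1 ≤ E ∧ ∀ z ∈ L, ∃ z' ∈ L',
      z' ∉ (⊥ : IntermediateField ℚ K) ∧ ∃ r : ℚ, r ≠ 0 ∧ z = r * z' ∧ |r| ≤ κ ∧ |1 / r| ≤ κ ∧
        (E : ℚ) * (1 / r) ∈ ZZ := by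
    clear hNC
    induction L with
    | nil => exact ⟨1, 1, le_rfl, le_rfl, by simp⟩
    | cons y L ih =>
      obtain ⟨κ, E, h1, h2, h3⟩ := ih (fun z hz => hL z (List.mem_cons_of_mem _ hz))
      obtain ⟨z', hz', hb, r, hr, e⟩ := hL y List.mem_cons_self
      obtain ⟨E', hE', hl⟩ := common_den [1 / r]
      refine ⟨max κ (max |r| |1 / r|), E * E', h1.trans (le_max_left _ _), Nat.mul_pos h2 hE', ?_⟩
      intro z hz
      rcases List.mem_cons.1 hz with rfl | hz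
      · exact ⟨z', hz', hb, r, hr, e, (le_max_left _ _).trans (le_max_right _ _),
          (le_max_right _ _).trans (le_max_right _ _),
          mul_mem_ZZ_of_dvd (dvd_mul_left _ _) (hl _ (by simp))⟩
      · obtain ⟨w, hw, hwb, s, hs, e1, e2, e3, e4⟩ := h3 z hz
        exact ⟨w, hw, hwb, s, hs, e1, e2.trans (le_max_left _ _), e3.trans (le_max_left _ _),
          mul_mem_ZZ_of_dvd (dvd_mul_right _ _) e4⟩
  obtain ⟨κ, E, hκ, hE, hmain⟩ := main
  have hκ0 : 0 ≤ κ := by linarith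
  refine ⟨D * E, Nat.mul_pos hD hE, C * κ ^ 2, one_le_mul_of_one_le_of_one_le hC
    (one_le_pow₀ hκ), ?_⟩
  intro h hh hP x hx hall
  refine hNC h hh hP (κ * x) (by nlinarith) fun z hz => ?_
  obtain ⟨z', hz', hb, r, hr, e, b1, b2, b3⟩ := hmain z hz
  obtain ⟨zp, zm, hT⟩ := hall z' hz'
  have hrp : 0 < |r| := abs_pos.2 hr
  have hG : ∀ n : ℚ, G h z n = H h r * G h z' (n / r) := by
    intro n
    rw [← G_scale' hd hh hb hr, e]
    congr 1
    field_simp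
  have hlat : ∀ n : ℚ, (D : ℚ) * n ∈ ZZ → ((D * E : ℕ) : ℚ) * (n / r) ∈ ZZ := by
    intro n hn
    have : ((D * E : ℕ) : ℚ) * (n / r) = (E * (1 / r)) * (D * n) := by push_cast; ring
    rw [this]; exact mul_mem b3 hn
  -- sizes
  have hlo : ∀ n : ℚ, κ * x ≤ n → x ≤ n / |r| := by
    intro n hn
    rw [le_div_iff₀ hrp]
    calc x * |r| ≤ x * κ := mul_le_mul_of_nonneg_left b1 (by linarith)
      _ ≤ n := by linarith
  have hhi : ∀ n : ℚ, 0 ≤ n → n ≤ C * (κ * x) → n / |r| ≤ C * κ ^ 2 * x := by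
    intro n hn0 hn
    have h1 : n / |r| = n * |1 / r| := by rw [abs_div, abs_one]; ring
    rw [h1]
    calc n * |1 / r| ≤ n * κ := mul_le_mul_of_nonneg_left b2 hn0
      _ ≤ C * (κ * x) * κ := mul_le_mul_of_nonneg_right hn hκ0
      _ = C * κ ^ 2 * x := by ring
  have hκx : 0 ≤ κ * x := by positivity
  rcases lt_or_gt_of_ne hr with hneg | hpos
  · refine ⟨H h r * zm, H h r * zp, fun n hn => ⟨fun h1 h2 => ?_, fun h1 h2 => ?_⟩⟩
    · rw [hG]
      congr 1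
      have e1 : -(n / r) = n / |r| := by rw [abs_of_neg hneg]; field_simp
      exact (hT _ (hlat n hn)).2 (by rw [e1]; exact hlo n h1)
        (by rw [e1]; exact hhi n (hκx.trans h1) h2)
    · rw [hG]
      congr 1
      have e1 : n / r = -n / |r| := by rw [abs_of_neg hneg]; field_simp
      exact (hT _ (hlat n hn)).1 (by rw [e1]; exact hlo _ h1)
        (by rw [e1]; exact hhi _ (hκx.trans h1) h2)
  · refine ⟨H h r * zp, H h r * zm, fun n hn => ⟨fun h1 h2 => ?_, fun h1 h2 => ?_⟩⟩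
    · rw [hG]
      congr 1
      have e1 : n / r = n / |r| := by rw [abs_of_pos hpos]
      exact (hT _ (hlat n hn)).1 (by rw [e1]; exact hlo n h1)
        (by rw [e1]; exact hhi n (hκx.trans h1) h2)
    · rw [hG]
      congr 1
      have e1 : -(n / r) = -n / |r| := by rw [abs_of_pos hpos]; ring
      exact (hT _ (hlat n hn)).2 (by rw [e1]; exact hlo _ h1)
        (by rw [e1]; exact hhi _ (hκx.trans h1) h2)

/-- Two elements along conjugate diameters, and a third one on the side of both of them. -/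
theorem core (hd : Odd (Module.finrank ℚ K)) {t t' s u w u' w' : K}
    (ht : t ∉ (⊥ : IntermediateField ℚ K)) (ht' : t' ∉ (⊥ : IntermediateField ℚ K))
    {p : ℕ} (hp : p.Prime) (rel : t' ^ 2 + t' = p * t ^ 2 + t)
    (E : ∃ α β γ δ ε ζ a b : ℚ,
      (α : K) * t ^ 2 + β * (t * s) + γ * s ^ 2 + δ * t + ε * s + ζ = 0 ∧ 0 < α * γ ∧
      0 < β ^ 2 - 4 * α * γ ∧ ¬ IsSquare (β ^ 2 - 4 * α * γ) ∧
      α * (α * b ^ 2 - β * a * b + γ * a ^ 2) < 0 ∧ u = a * t + b * s ∧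
      w = α * b * t + γ * a * s)
    (E' : ∃ α β γ δ ε ζ a b : ℚ,
      (α : K) * t' ^ 2 + β * (t' * s) + γ * s ^ 2 + δ * t' + ε * s + ζ = 0 ∧ 0 < α * γ ∧
      0 < β ^ 2 - 4 * α * γ ∧ ¬ IsSquare (β ^ 2 - 4 * α * γ) ∧
      α * (α * b ^ 2 - β * a * b + γ * a ^ 2) < 0 ∧ u' = a * t' + b * s ∧
      w' = α * b * t' + γ * a * s) :
    (∀ z ∈ [t, t', s, u, w, u', w'], z ∉ (⊥ : IntermediateField ℚ K)) ∧
      NC (fun h => h p = -1) [t, t', s, u, w, u', w'] := by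
  obtain ⟨α, β, γ, δ, ε, ζ, a, b, r1, r2, r3, r4, r5, hu, hw⟩ := E
  obtain ⟨α', β', γ', δ', ε', ζ', a', b', r1', r2', r3', r4', r5', hu', hw'⟩ := E'
  obtain ⟨hs, hub, hwb, D1, hD1, C1, hC1, H1⟩ := same_side hd ht (s := s) (α := α) (β := β) (γ := γ)
    (δ := δ) (ε := ε) (ζ := ζ) (a := a) (b := b) (by linear_combination r1) r2 r3 r4 r5
  obtain ⟨-, hub', hwb', D2, hD2, C2, hC2, H2⟩ := same_side hd ht' (s := s) (α := α') (β := β')
    (γ := γ') (δ := δ') (ε := ε') (ζ := ζ') (a := a') (b := b') (by linear_combination r1')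
    r2' r3' r4' r5'
  have hpq : ¬ IsSquare (p : ℚ) := not_sq_rat (not_isSquare_prime hp)
  obtain ⟨D3, hD3, C3, hC3, H3⟩ := conj_pair hd ht' (s := t) (q := p) (a := 1) (b := 1) (c := 0)
    (by exact_mod_cast hp.pos) hpq (by push_cast; linear_combination rel)
  have eu : ((α * b : ℚ) : K) * t + ((γ * a : ℚ) : K) * s = w := by rw [hw]; push_cast; ring
  have eu' : ((α' * b' : ℚ) : K) * t' + ((γ' * a' : ℚ) : K) * s = w' := by
    rw [hw']; push_cast; ring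
  rw [← hu] at hub
  rw [← hu'] at hub'
  rw [eu] at hwb
  rw [eu'] at hwb'
  refine ⟨?_, D1 * D2 * D3, Nat.mul_pos (Nat.mul_pos hD1 hD2) hD3, C1 + C2 + C3, by linarith, ?_⟩
  · intro z hz
    simp only [List.mem_cons, List.not_mem_nil, or_false] at hz
    rcases hz with rfl | rfl | rfl | rfl | rfl | rfl | rfl
    · exact ht
    · exact ht'
    · exact hs
    · exact hub
    · exact hwb
    · exact hub'
    · exact hwb'
  intro h hh hhp x hx hall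
  obtain ⟨tp, tm, Ht⟩ := hall t (by simp)
  obtain ⟨tp', tm', Ht'⟩ := hall t' (by simp)
  obtain ⟨sp, sm, Hs⟩ := hall s (by simp)
  obtain ⟨up, um, Hu⟩ := hall u (by simp)
  obtain ⟨wp, wm, Hw⟩ := hall w (by simp)
  obtain ⟨up', um', Hu'⟩ := hall u' (by simp)
  obtain ⟨wp', wm', Hw'⟩ := hall w' (by simp)
  have d1 : D1 ∣ D1 * D2 * D3 := ⟨D2 * D3, by ring⟩
  have d2 : D2 ∣ D1 * D2 * D3 := ⟨D1 * D3, by ring⟩
  have d3 : D3 ∣ D1 * D2 * D3 := ⟨D1 * D2, by ring⟩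
  have c1 : C1 * x ≤ (C1 + C2 + C3) * x := mul_le_mul_of_nonneg_right (by linarith) (by linarith)
  have c2 : C2 * x ≤ (C1 + C2 + C3) * x := mul_le_mul_of_nonneg_right (by linarith) (by linarith)
  have c3 : C3 * x ≤ (C1 + C2 + C3) * x := mul_le_mul_of_nonneg_right (by linarith) (by linarith)
  have q1 := H1 h hh x hx tp tm sp sm up um wp wm (Ht.mono d1 le_rfl c1) (Hs.mono d1 le_rfl c1)
    (by rw [← hu]; exact Hu.mono d1 le_rfl c1) (by rw [eu]; exact Hw.mono d1 le_rfl c1)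
  have q2 := H2 h hh x hx tp' tm' sp sm up' um' wp' wm' (Ht'.mono d2 le_rfl c2)
    (Hs.mono d2 le_rfl c2) (by rw [← hu']; exact Hu'.mono d2 le_rfl c2)
    (by rw [eu']; exact Hw'.mono d2 le_rfl c2)
  have q3 := H3 h hh x hx tp' tm' tp tm (Ht'.mono d3 le_rfl c3) (Ht.mono d3 le_rfl c3)
  rw [H_nat hh, hhp] at q3
  rw [q3] at q2
  have : (1 : ℤ) = -1 := by
    calc (1 : ℤ) = -1 * (tp * tm) * (sp * sm) := q2.symm
      _ = -((tp * tm) * (sp * sm)) := by ring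
      _ = -1 := by rw [q1]
  norm_num at this

theorem deg_five (h5 : Module.finrank ℚ K = 5) {x : K}
    (hx : x ∉ (⊥ : IntermediateField ℚ K)) : (minpoly ℚ x).natDegree = Module.finrank ℚ K := by
  have := IntermediateField.isSimpleOrder_of_finrank_prime ℚ K (by rw [h5]; exact Nat.prime_five)
  have htop : IntermediateField.adjoin ℚ {x} = (⊤ : IntermediateField ℚ K) := by
    rcases eq_bot_or_eq_top (IntermediateField.adjoin ℚ {x} : IntermediateField ℚ K) with h | h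
    · exact absurd (h ▸ IntermediateField.mem_adjoin_simple_self ℚ x) hx
    · exact h
  rw [← IntermediateField.adjoin.finrank (Algebra.IsIntegral.isIntegral x), htop,
    IntermediateField.finrank_top']

theorem smul_not_mem' {z : K} (hz : z ∉ (⊥ : IntermediateField ℚ K)) {c : ℚ} (hc : c ≠ 0) :
    (c : K) * z ∉ (⊥ : IntermediateField ℚ K) := by
  intro hm
  obtain ⟨r, hr⟩ := mem_bot_iff.1 hm
  have hcK : (c : K) ≠ 0 := by exact_mod_cast hc
  apply hz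
  refine mem_bot_iff.2 ⟨r / c, ?_⟩
  push_cast; rw [hr]; field_simp

/-- The seven elements near `x`. -/
theorem seven (h5 : Module.finrank ℚ K = 5) {x : K} (hx : x ∉ (⊥ : IntermediateField ℚ K))
    {p : ℕ} (hp : p.Prime) {ε : ℝ} (hε : 0 < ε) :
    ∃ L : List K, L.length = 7 ∧ (∀ z ∈ L, z ∉ (⊥ : IntermediateField ℚ K) ∧
      ∀ φ : K →+* ℂ, ‖φ z - φ x‖ < ε) ∧ NC (fun h => h p = -1) L := by
  have hd : Odd (Module.finrank ℚ K) := by rw [h5]; decide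
  obtain ⟨t, t', s, rel, ht, ht', N1, N2, N3, E1, E2⟩ := triangle h5 x hx p hp ε hε
  obtain ⟨α, β, γ, δ, ε', ζ, a, b, r1, r2, r3, r4, r5, N4, N5⟩ := E1
  obtain ⟨α', β', γ', δ', ε'', ζ', a', b', r1', r2', r3', r4', r5', N6, N7⟩ := E2
  obtain ⟨hbot, hNC⟩ := core hd ht ht' hp rel ⟨α, β, γ, δ, ε', ζ, a, b, r1, r2, r3, r4, r5, rfl, rfl⟩
    ⟨α', β', γ', δ', ε'', ζ', a', b', r1', r2', r3', r4', r5', rfl, rfl⟩
  obtain ⟨c1, k1, n1⟩ := N1
  obtain ⟨c2, k2, n2⟩ := N2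
  obtain ⟨c3, k3, n3⟩ := N3
  obtain ⟨c4, k4, n4⟩ := N4
  obtain ⟨c5, k5, n5⟩ := N5
  obtain ⟨c6, k6, n6⟩ := N6
  obtain ⟨c7, k7, n7⟩ := N7
  have inv : ∀ (c : ℚ) (z : K), c ≠ 0 → z = ((c⁻¹ : ℚ) : K) * ((c : K) * z) := by
    intro c z hc
    have hcK : (c : K) ≠ 0 := by exact_mod_cast hc
    push_cast; field_simp
  refine ⟨[(c1 : K) * t, (c2 : K) * t', (c3 : K) * s, (c4 : K) * (a * t + b * s),
    (c5 : K) * (α * b * t + γ * a * s), (c6 : K) * (a' * t' + b' * s),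
    (c7 : K) * (α' * b' * t' + γ' * a' * s)], rfl, ?_, ?_⟩
  · intro z hz
    simp only [List.mem_cons, List.not_mem_nil, or_false] at hz
    rcases hz with rfl | rfl | rfl | rfl | rfl | rfl | rfl
    · exact ⟨smul_not_mem' (hbot _ (by simp)) k1, n1⟩
    · exact ⟨smul_not_mem' (hbot _ (by simp)) k2, n2⟩
    · exact ⟨smul_not_mem' (hbot _ (by simp)) k3, n3⟩
    · exact ⟨smul_not_mem' (hbot _ (by simp)) k4, n4⟩
    · exact ⟨smul_not_mem' (hbot _ (by simp)) k5, n5⟩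
    · exact ⟨smul_not_mem' (hbot _ (by simp)) k6, n6⟩
    · exact ⟨smul_not_mem' (hbot _ (by simp)) k7, n7⟩
  · refine hNC.scale hd fun z hz => ?_
    simp only [List.mem_cons, List.not_mem_nil, or_false] at hz
    rcases hz with rfl | rfl | rfl | rfl | rfl | rfl | rfl
    · exact ⟨_, by simp, smul_not_mem' (hbot _ (by simp)) k1, c1⁻¹, inv_ne_zero k1, inv c1 _ k1⟩
    · exact ⟨(c2 : K) * z, by simp, smul_not_mem' (hbot _ (by simp)) k2, c2⁻¹, inv_ne_zero k2,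
        inv c2 _ k2⟩
    · exact ⟨(c3 : K) * z, by simp, smul_not_mem' (hbot _ (by simp)) k3, c3⁻¹, inv_ne_zero k3,
        inv c3 _ k3⟩
    · exact ⟨(c4 : K) * (a * t + b * s), by simp, smul_not_mem' (hbot _ (by simp)) k4, c4⁻¹,
        inv_ne_zero k4, inv c4 _ k4⟩
    · exact ⟨(c5 : K) * (α * b * t + γ * a * s), by simp, smul_not_mem' (hbot _ (by simp)) k5,
        c5⁻¹, inv_ne_zero k5, inv c5 _ k5⟩
    · exact ⟨(c6 : K) * (a' * t' + b' * s), by simp, smul_not_mem' (hbot _ (by simp)) k6, c6⁻¹,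
        inv_ne_zero k6, inv c6 _ k6⟩
    · exact ⟨(c7 : K) * (α' * b' * t' + γ' * a' * s), by simp,
        smul_not_mem' (hbot _ (by simp)) k7, c7⁻¹, inv_ne_zero k7, inv c7 _ k7⟩

/-- All number fields of degree five, uniform version. -/
theorem quintic_windows (h5 : Module.finrank ℚ K = 5) {x : K}
    (hx : x ∉ (⊥ : IntermediateField ℚ K)) {p : ℕ} (hp : p.Prime) {ε : ℝ} (hε : 0 < ε) :
    ∃ L : List K, L.length = 7 ∧ (∀ z ∈ L, z ∉ (⊥ : IntermediateField ℚ K) ∧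
      ∀ φ : K →+* ℂ, ‖φ z - φ x‖ < ε) ∧
      ∃ m : ℕ, 1 ≤ m ∧ ∀ v : ℕ, 1 ≤ v → m ∣ v → (∀ z ∈ L, IsIntegral ℤ ((v : K) * z)) ∧
        ∃ C : ℕ, ∀ h : ℕ → ℤ, CM h → h p = -1 → ∀ X : ℕ, 1 ≤ X → ∃ z ∈ L, ∃ e : ℤ,
          (e = 1 ∨ e = -1) ∧ ∀ s : ℤ, (s = 1 ∨ s = -1) → ∃ n : ℕ, X ≤ n ∧ n ≤ C * X ∧
            h ((minpoly ℤ (((e * v : ℤ) : K) * z)).eval (n : ℤ)).natAbs = s := by
  have hd : Odd (Module.finrank ℚ K) := by rw [h5]; decide
  obtain ⟨L, h7, hL, D, hD, C, hC, H⟩ := seven h5 hx hp hε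
  exact ⟨L, h7, hL, windows hd (by rw [h5]; norm_num) (fun z hz => deg_five h5 (hL z hz).1) hD H⟩

end Pool.Agent.Lib_helper3.QUI
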