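import Mathlib
import Pool.Agent.Lib_helper3.QUI.Main
import Pool.Agent.Lib_helper11.CUB.Exc

/-!
Number fields of degree five: generators with infinitely many sign changes are dense.
-/

namespace Pool.Agent.Lib_helper3.QUI

open Pool.Agent.Lib_helper11.CUB Polynomial

variable {K : Type*} [Field K] [NumberField K]

theorem exc_two {h : ℕ → ℤ} {z : K} (h1 : Exc h z) (h2 : Exc h (-z)) {D : ℕ} (hD : 1 ≤ D) :
    ∃ N : ℚ, ∀ x X : ℚ, N ≤ x → ∃ zp zm : ℤ, Two h D z zp zm x X := by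
  obtain ⟨a, h1⟩ := h1
  obtain ⟨b, h2⟩ := h2
  obtain ⟨N1, h1⟩ := h1 D hD
  obtain ⟨N2, h2⟩ := h2 D hD
  refine ⟨max N1 N2, fun x X hx => ⟨a, b, fun n hn => ⟨fun k _ => ?_, fun k _ => ?_⟩⟩⟩
  · exact h1 n hn ((le_max_left _ _).trans (hx.trans k))
  · rw [← G_neg']
    exact h2 (-n) (by rw [mul_neg]; exact neg_mem hn) ((le_max_right _ _).trans (hx.trans k))

theorem exists_not_exc {P : (ℕ → ℤ) → Prop} {L : List K} (hNC : NC P L) {h : ℕ → ℤ} (hh : CM h)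
    (hP : P h) : ∃ z ∈ L, ∃ e : ℤ, (e = 1 ∨ e = -1) ∧ ¬ Exc h ((e : K) * z) := by
  by_contra hcon
  push Not at hcon
  obtain ⟨D, hD, C, hC, hNC⟩ := hNC
  have key : ∃ N : ℚ, ∀ x X : ℚ, N ≤ x → ∀ z ∈ L, ∃ zp zm : ℤ, Two h D z zp zm x X := by
    clear hNC
    induction L with
    | nil => exact ⟨1, by simp⟩
    | cons y L ih =>
      obtain ⟨N, hN⟩ := ih (fun z hz => hcon z (List.mem_cons_of_mem _ hz))
      obtain ⟨N', hN'⟩ := exc_two (h := h) (z := y)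
        (by simpa using hcon y List.mem_cons_self 1 (Or.inl rfl))
        (by simpa using hcon y List.mem_cons_self (-1) (Or.inr rfl)) hD
      refine ⟨max N N', fun x X hx z hz => ?_⟩
      rcases List.mem_cons.1 hz with rfl | hz
      · exact hN' x X ((le_max_right _ _).trans hx)
      · exact hN x X ((le_max_left _ _).trans hx) z hz
  obtain ⟨N, hN⟩ := key
  exact hNC h hh hP (max 1 N) (le_max_left _ _) (hN _ _ (le_max_right _ _))

theorem not_exc_final' (hd : Odd (Module.finrank ℚ K)) {h : ℕ → ℤ} (hh : CM h) {z : K}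
    (hz : z ∉ (⊥ : IntermediateField ℚ K))
    (hdeg : (minpoly ℚ z).natDegree = Module.finrank ℚ K) {e : ℤ} (he : e = 1 ∨ e = -1)
    (hne : ¬ Exc h ((e : K) * z)) :
    ∃ m : ℕ, 1 ≤ m ∧ ∀ v : ℕ, 1 ≤ v → m ∣ v → IsIntegral ℤ ((v : K) * z) ∧
      ∀ N : ℕ, ∀ s : ℤ, (s = 1 ∨ s = -1) → ∃ n : ℕ, N ≤ n ∧
        h ((minpoly ℤ (((e * v : ℤ) : K) * z)).eval (n : ℤ)).natAbs = s := by
  unfold Exc at hne
  push Not at hne
  obtain ⟨D1, hD1, h1⟩ := hne 1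
  obtain ⟨D2, hD2, h2⟩ := hne (-1)
  obtain ⟨k0, hk0, hkint⟩ := common_int [z]
  refine ⟨D1 * D2 * k0, Nat.mul_pos (Nat.mul_pos hD1 hD2) hk0, fun v hv hDv => ?_⟩
  have hint : IsIntegral ℤ ((v : K) * z) := by
    obtain ⟨k, rfl⟩ := (dvd_mul_left _ _).trans hDv
    have natInt : IsIntegral ℤ (k : K) := by
      have := isIntegral_algebraMap (R := ℤ) (A := K) (x := (k : ℤ))
      simpa using this
    have e : ((k0 * k : ℕ) : K) * z = (k : K) * ((k0 : K) * z) := by push_cast; ring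
    rw [e]; exact natInt.mul (hkint z (by simp))
  refine ⟨hint, fun N s hs => ?_⟩
  have key : ∀ ε : ℤ, (ε = 1 ∨ ε = -1) → ∃ D : ℕ, D ∣ v ∧ ∀ X : ℚ, ∃ n : ℚ, (D : ℚ) * n ∈ ZZ ∧
      X ≤ n ∧ G h ((e : K) * z) n ≠ ε := by
    intro ε hε
    rcases hε with rfl | rfl
    · exact ⟨D1, (Dvd.intro (D2 * k0) (by ring)).trans hDv, h1⟩
    · exact ⟨D2, (Dvd.intro (D1 * k0) (by ring)).trans hDv, h2⟩
  have hvv := hh.values v hv
  obtain ⟨D, hD, h4⟩ := key (-(h v * s)) (by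
    rcases hvv with g | g <;> rcases hs with g' | g' <;> rw [g, g'] <;> norm_num)
  obtain ⟨k, hk, hk2, hk3⟩ := h4 (max 1 (N : ℚ))
  have hk1 : (1 : ℚ) ≤ k := (le_max_left _ _).trans hk2
  have hkN : (N : ℚ) ≤ k := (le_max_right _ _).trans hk2
  obtain ⟨m, hm⟩ := mem_ZZ.1 (mul_mem_ZZ_of_dvd hD hk)
  have hvq : (1 : ℚ) ≤ v := by exact_mod_cast hv
  have hmN : (N : ℚ) ≤ m := by rw [hm]; nlinarith
  have hm0 : 0 ≤ m := by
    have : (0 : ℚ) ≤ m := by rw [hm]; positivity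
    exact_mod_cast this
  obtain ⟨n, rfl⟩ := Int.eq_ofNat_of_zero_le hm0
  refine ⟨n, by exact_mod_cast hmN, ?_⟩
  have e2 : (e : ℚ) * e = 1 := by rcases he with rfl | rfl <;> norm_num
  have hG : G h z (e * k) = G h ((e : K) * z) k := by
    rcases he with rfl | rfl
    · simp
    · rw [← G_neg']; simp
  rw [G_scaled' hd hh hz hdeg hv hint he (k := e * k) (by rw [hm, ← mul_assoc (e : ℚ), e2, one_mul]),
    hG]
  rw [← hG] at hk3 ⊢
  rcases G_vals' hh hz (e * k) with g | g <;> rcases hvv with g' | g' <;> rcases hs with g'' | g'' <;>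
    rw [g, g', g''] at hk3 <;> rw [g, g', g''] <;> first | rfl | (exfalso; exact hk3 (by norm_num))

/-- All number fields of degree five: the elements with infinitely many sign changes are dense. -/
theorem quintic_dense (h5 : Module.finrank ℚ K = 5) {x : K}
    (hx : x ∉ (⊥ : IntermediateField ℚ K)) {h : ℕ → ℤ} (hh : CM h) {p : ℕ} (hp : p.Prime)
    (hhp : h p = -1) {ε : ℝ} (hε : 0 < ε) :
    ∃ z : K, z ∉ (⊥ : IntermediateField ℚ K) ∧ (∀ φ : K →+* ℂ, ‖φ z - φ x‖ < ε) ∧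
      ∃ e : ℤ, (e = 1 ∨ e = -1) ∧ ∃ m : ℕ, 1 ≤ m ∧ ∀ v : ℕ, 1 ≤ v → m ∣ v →
        IsIntegral ℤ ((v : K) * z) ∧ ∀ N : ℕ, ∀ s : ℤ, (s = 1 ∨ s = -1) → ∃ n : ℕ, N ≤ n ∧
          h ((minpoly ℤ (((e * v : ℤ) : K) * z)).eval (n : ℤ)).natAbs = s := by
  have hd : Odd (Module.finrank ℚ K) := by rw [h5]; decide
  obtain ⟨L, -, hL, hNC⟩ := seven h5 hx hp hε
  obtain ⟨z, hz, e, he, hne⟩ := exists_not_exc hNC hh hhp
  exact ⟨z, (hL z hz).1, (hL z hz).2, e, he,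
    not_exc_final' hd hh (hL z hz).1 (deg_five h5 (hL z hz).1) he hne⟩

end Pool.Agent.Lib_helper3.QUI
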