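import Mathlib
import Pool.Agent.Lib_helper3.QUI.Dense

/-!
Number fields of degree five: finite sets of integers, near a given direction, one of which has sign
changes along its minimal polynomial at every scale.
-/

namespace Pool.Agent.Lib_helper3.QUI

open Pool.Agent.Lib_helper11.CUB Polynomial

variable {K : Type*} [Field K] [NumberField K]

/-- A finite set of which one member has a property at every scale has a member with the property
at arbitrarily large scales. -/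
theorem pigeon {α : Type*} {T : Finset α} {Q : α → ℕ → Prop} (h : ∀ x : ℕ, 1 ≤ x → ∃ t ∈ T, Q t x) :
    ∃ t ∈ T, ∀ N : ℕ, ∃ x : ℕ, N ≤ x ∧ Q t x := by
  classical
  by_contra hcon
  push Not at hcon
  choose! N hN using hcon
  obtain ⟨t, ht, hQ⟩ := h (1 + T.sup N) (by omega)
  exact hN t ht (1 + T.sup N) ((Finset.le_sup ht).trans (by omega)) hQ

theorem quintic_set (h5 : Module.finrank ℚ K = 5) {y : K}
    (hy : y ∉ (⊥ : IntermediateField ℚ K)) {ε : ℝ} (hε : 0 < ε) {p : ℕ} (hp : p.Prime) :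
    ∃ T : Finset K, T.card ≤ 14 ∧ (∀ t ∈ T, IsIntegral ℤ t ∧
      IntermediateField.adjoin ℚ {t} = (⊤ : IntermediateField ℚ K) ∧
      ∃ r : ℚ, r ≠ 0 ∧ ∀ φ : K →+* ℂ, ‖φ ((r : K) * t) - φ y‖ < ε) ∧
      ∃ C : ℕ, ∀ h : ℕ → ℤ, CM h → h p = -1 →
        (∀ x : ℕ, 1 ≤ x → ∃ t ∈ T, ∀ s : ℤ, (s = 1 ∨ s = -1) → ∃ n : ℕ, x ≤ n ∧ n ≤ C * x ∧
          h ((minpoly ℤ t).eval (n : ℤ)).natAbs = s) ∧
        ∃ t ∈ T, ∀ N : ℕ, ∀ s : ℤ, (s = 1 ∨ s = -1) → ∃ n : ℕ, N ≤ n ∧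
          h ((minpoly ℤ t).eval (n : ℤ)).natAbs = s := by
  classical
  obtain ⟨L, h7, hL, m, hm, H⟩ := quintic_windows h5 hy hp hε
  obtain ⟨hint, C, hC⟩ := H m hm dvd_rfl
  have hmq : (m : ℚ) ≠ 0 := by exact_mod_cast (by omega : m ≠ 0)
  have hmK : (m : K) ≠ 0 := by exact_mod_cast (by omega : m ≠ 0)
  obtain ⟨T, hT⟩ : ∃ T : Finset K, T = (L.map (fun z => (((1 * m : ℤ) : ℤ) : K) * z) ++
    L.map (fun z => (((-1 * m : ℤ) : ℤ) : K) * z)).toFinset := ⟨_, rfl⟩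
  have hmem : ∀ t, t ∈ T ↔ ∃ z ∈ L, ∃ e : ℤ, (e = 1 ∨ e = -1) ∧ t = ((e * m : ℤ) : K) * z := by
    intro t
    rw [hT, List.mem_toFinset, List.mem_append, List.mem_map, List.mem_map]
    constructor
    · rintro (⟨z, hz, rfl⟩ | ⟨z, hz, rfl⟩)
      · exact ⟨z, hz, 1, Or.inl rfl, rfl⟩
      · exact ⟨z, hz, -1, Or.inr rfl, rfl⟩
    · rintro ⟨z, hz, e, he, rfl⟩
      rcases he with rfl | rfl
      · exact Or.inl ⟨z, hz, rfl⟩
      · exact Or.inr ⟨z, hz, rfl⟩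
  have win : ∀ h : ℕ → ℤ, CM h → h p = -1 → ∀ x : ℕ, 1 ≤ x → ∃ t ∈ T, ∀ s : ℤ,
      (s = 1 ∨ s = -1) → ∃ n : ℕ, x ≤ n ∧ n ≤ C * x ∧
        h ((minpoly ℤ t).eval (n : ℤ)).natAbs = s := by
    intro h hh hhp x hx
    obtain ⟨z, hz, e, he, H⟩ := hC h hh hhp x hx
    exact ⟨_, (hmem _).2 ⟨z, hz, e, he, rfl⟩, H⟩
  refine ⟨T, ?_, ?_, C, fun h hh hhp => ⟨win h hh hhp, ?_⟩⟩
  · rw [hT]
    refine (List.toFinset_card_le _).trans ?_
    rw [List.length_append, List.length_map, List.length_map, h7]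
  · intro t ht
    obtain ⟨z, hz, e, he, rfl⟩ := (hmem t).1 ht
    have he0 : (e : ℚ) ≠ 0 := by rcases he with rfl | rfl <;> norm_num
    have heK : (e : K) ≠ 0 := by exact_mod_cast he0
    have hem : ((e * m : ℤ) : ℚ) ≠ 0 := by push_cast; exact mul_ne_zero he0 hmq
    refine ⟨?_, ?_, 1 / ((e * m : ℤ) : ℚ), one_div_ne_zero hem, ?_⟩
    · have e1 : ((e * m : ℤ) : K) * z = (e : K) * ((m : K) * z) := by push_cast; ring
      rw [e1]
      rcases he with rfl | rfl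
      · simpa using hint z hz
      · simpa using (hint z hz).neg
    · have hdeg := deg_mul (deg_five h5 (hL z hz).1) hem
      rw [Rat.cast_intCast] at hdeg
      rw [← IntermediateField.adjoin.finrank (Algebra.IsIntegral.isIntegral _)] at hdeg
      exact IntermediateField.eq_of_le_of_finrank_eq le_top
        (by rw [hdeg, IntermediateField.finrank_top'])
    · intro φ
      have e1 : ((1 / ((e * m : ℤ) : ℚ) : ℚ) : K) * (((e * m : ℤ) : K) * z) = z := by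
        push_cast; field_simp
      rw [e1]
      exact (hL z hz).2 φ
  · obtain ⟨t, ht, H⟩ := pigeon (win h hh hhp)
    refine ⟨t, ht, fun N s hs => ?_⟩
    obtain ⟨x, hx, H⟩ := H N
    obtain ⟨n, h1, -, h3⟩ := H s hs
    exact ⟨n, hx.trans h1, h3⟩

end Pool.Agent.Lib_helper3.QUI
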