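import Mathlib
import Pool.Agent.Lib_helper3.QUI.A9

/-!
Number fields of odd degree: from one end to both ends.
-/

namespace Pool.Agent.Lib_helper3.QUI

open Pool.Agent.Lib_helper11.CUB Polynomial

variable {K : Type*} [Field K] [NumberField K]

/-- The relation of a quadratic substitution. -/
theorem relR' (hd : Odd (Module.finrank ℚ K)) {h : ℕ → ℤ} (hh : CM h) {α β : K}
    (hα : α ∉ (⊥ : IntermediateField ℚ K)) (hβ : β ∉ (⊥ : IntermediateField ℚ K)) {a y z : ℚ}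
    (ha : a ≠ 0) (e : α ^ 2 = a * β + y * α + z) (n : ℚ) :
    G h α (n + y) * G h (-α) n = H h a * G h β ((n ^ 2 + y * n - z) / a) := by
  have haK : (a : K) ≠ 0 := by exact_mod_cast ha
  have key : (((n + y : ℚ) : K) - α) * ((n : K) - -α) =
      (a : K) * ((((n ^ 2 + y * n - z) / a : ℚ) : K) - β) := by
    have e1 : (a : K) * (((n ^ 2 + y * n - z) / a : ℚ) : K) = n ^ 2 + y * n - z := by
      push_cast; field_simp
    push_cast at e1 ⊢
    linear_combination -e - e1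
  have := congrArg (fun t : K => H h (Algebra.norm ℚ t)) key
  rw [H_norm_mul hh (sub_ne_zero_of hα _) (sub_ne_zero_of (neg_not_mem hα) _),
    H_norm_mul hh haK (sub_ne_zero_of hβ _), H_norm_q hd hh ha] at this
  exact this

theorem stepR' (hd : Odd (Module.finrank ℚ K)) {α β : K}
    (hα : α ∉ (⊥ : IntermediateField ℚ K)) (hβ : β ∉ (⊥ : IntermediateField ℚ K)) {a y z : ℚ}
    (ha : 0 < a)
    (e : α ^ 2 = a * β + y * α + z) {D : ℕ} (hD : 1 ≤ D) :
    ∃ D' : ℕ, 1 ≤ D' ∧ D ∣ D' ∧ ∃ C : ℚ, 1 ≤ C ∧ ∀ h : ℕ → ℤ, CM h → ∀ x X : ℚ, 1 ≤ x →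
      ∀ ε ε' : ℤ, ConstOn h D' α ε x X → ConstOn h D' β ε' x X →
        ∀ n : ℚ, (D : ℚ) * n ∈ ZZ → C * x ≤ n → C * n ^ 2 ≤ X →
          G h (-α) n = H h a * ε * ε' := by
  obtain ⟨D2, hD2, hl⟩ := common_den [y, y / a, z / a, 1 / a]
  obtain ⟨M, hM⟩ : ∃ M : ℚ, M = 1 + |y| + |z| := ⟨_, rfl⟩
  have hy := abs_nonneg y
  have hz := abs_nonneg z
  have hM1 : 1 ≤ M := by linarith
  have hia : 0 < 1 / a := by positivity
  obtain ⟨C, hC⟩ : ∃ C : ℚ, C = 2 * M * (1 + a + 1 / a) := ⟨_, rfl⟩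
  have hC1 : 2 * M ≤ C := by
    rw [hC]; have : 0 ≤ 2 * M * (a + 1 / a) := by positivity
    linarith
  have hC2 : 2 * M * a ≤ C := by
    rw [hC]; have : 0 ≤ 2 * M * (1 + 1 / a) := by positivity
    linarith
  have hC3 : M / a ≤ C := by
    rw [hC]
    have h1 : M / a = M * (1 / a) := by ring
    have : 0 ≤ M * (2 * (1 + a) + 1 / a) := by positivity
    rw [h1]; linarith
  refine ⟨D * D * D2, Nat.mul_pos (Nat.mul_pos hD hD) hD2, ⟨D * D2, by ring⟩, C, by linarith, ?_⟩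
  intro h hh x X hx ε ε' hA hB n hn h1 h2
  have l1 := hl y (by simp)
  have l2 := hl (y / a) (by simp)
  have l3 := hl (z / a) (by simp)
  have l4 := hl (1 / a) (by simp)
  have hDD : ((D : ℤ) : ℚ) ∈ ZZ := int_mem _
  have hDD2 : ((D2 : ℤ) : ℚ) ∈ ZZ := int_mem _
  rw [Int.cast_natCast] at hDD hDD2
  have m1 : ((D * D * D2 : ℕ) : ℚ) * (n + y) ∈ ZZ := by
    have : ((D * D * D2 : ℕ) : ℚ) * (n + y) = D * D2 * (D * n) + D * D * (D2 * y) := by
      push_cast; ring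
    rw [this]
    exact add_mem (mul_mem (mul_mem hDD hDD2) hn) (mul_mem (mul_mem hDD hDD) l1)
  have m2 : ((D * D * D2 : ℕ) : ℚ) * ((n ^ 2 + y * n - z) / a) ∈ ZZ := by
    have : ((D * D * D2 : ℕ) : ℚ) * ((n ^ 2 + y * n - z) / a) =
        (D2 * (1 / a)) * (D * n) ^ 2 + D * (D2 * (y / a)) * (D * n) - D * D * (D2 * (z / a)) := by
      push_cast; ring
    rw [this]
    exact sub_mem (add_mem (mul_mem l4 (pow_mem hn 2)) (mul_mem (mul_mem hDD l2) hn))
      (mul_mem (mul_mem hDD hDD) l3)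
  have hn1 : 2 * M * x ≤ n := by
    have : 2 * M * x ≤ C * x := mul_le_mul_of_nonneg_right hC1 (by linarith)
    linarith
  have hnM : 2 * M ≤ n := by
    have : 2 * M * 1 ≤ 2 * M * x := mul_le_mul_of_nonneg_left hx (by linarith)
    linarith
  have hn0 : 1 ≤ n := by linarith
  have hnn : n ≤ n ^ 2 := by nlinarith
  have y1 := neg_abs_le y
  have y2 := le_abs_self y
  have z1 := neg_abs_le z
  have z2 := le_abs_self z
  have yn1 : -|y| * n ≤ y * n := mul_le_mul_of_nonneg_right y1 (by linarith)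
  have yn2 : y * n ≤ |y| * n := mul_le_mul_of_nonneg_right y2 (by linarith)
  have zn : |z| ≤ |z| * n := by nlinarith
  have k1 : G h α (n + y) = ε := by
    apply hA _ m1
    · have : x + |y| ≤ 2 * M * x := by
        rw [hM]; nlinarith [mul_nonneg hy (show 0 ≤ x - 1 by linarith), mul_nonneg hz (show 0 ≤ x by linarith)]
      linarith
    · refine le_trans ?_ h2
      have : (1 + |y|) * n ^ 2 ≤ C * n ^ 2 :=
        mul_le_mul_of_nonneg_right (by linarith) (by positivity)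
      have h4 : |y| ≤ |y| * n ^ 2 := by nlinarith
      linarith
  have k2 : G h β ((n ^ 2 + y * n - z) / a) = ε' := by
    apply hB _ m2
    · rw [le_div_iff₀ ha]
      have h4 : (M - 1) * n ≤ n / 2 * n := mul_le_mul_of_nonneg_right (by linarith) (by linarith)
      have h5 : M * a * x ≤ n / 2 := by
        have : 2 * M * a * x ≤ C * x := mul_le_mul_of_nonneg_right hC2 (by linarith)
        linarith
      have h6 : x * a ≤ M * a * x := by
        have : 1 * (a * x) ≤ M * (a * x) := mul_le_mul_of_nonneg_right hM1 (by positivity)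
        linarith
      have h7 : n / 2 * 1 ≤ n / 2 * n := mul_le_mul_of_nonneg_left hn0 (by linarith)
      have h8 : (M - 1) * n = |y| * n + |z| * n := by rw [hM]; ring
      nlinarith
    · refine le_trans ?_ h2
      have h4 : (n ^ 2 + y * n - z) / a ≤ M * n ^ 2 / a := by
        apply div_le_div_of_nonneg_right _ ha.le
        have h5 : |y| * n ≤ |y| * n ^ 2 := mul_le_mul_of_nonneg_left hnn hy
        have h6 : |z| * n ≤ |z| * n ^ 2 := mul_le_mul_of_nonneg_left hnn hz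
        rw [hM]
        linarith
      have h5 : M * n ^ 2 / a = M / a * n ^ 2 := by ring
      have h6 : M / a * n ^ 2 ≤ C * n ^ 2 := mul_le_mul_of_nonneg_right hC3 (by positivity)
      linarith
  have key := relR' hd hh hα hβ ha.ne' e n
  rw [k1, k2] at key
  have hε : ε * ε = 1 := by rw [← k1]; exact G_sq hh hα _
  linear_combination ε * key - G h (-α) n * hε

/-- The signs along the elements of the list are not all constant for large positive numbers. -/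
def NC1 (P : (ℕ → ℤ) → Prop) (L : List K) : Prop :=
  ∃ D : ℕ, 1 ≤ D ∧ ∃ C : ℚ, 1 ≤ C ∧ ∀ h : ℕ → ℤ, CM h → P h → ∀ x : ℚ, 1 ≤ x →
    ¬ ∀ z ∈ L, ∃ ε : ℤ, ConstOn h D z ε x (C * x ^ 2)

theorem NC.one (hd : Odd (Module.finrank ℚ K)) {P : (ℕ → ℤ) → Prop} {L L' : List K}
    (hNC : NC P L)
    (hL : ∀ z ∈ L, z ∈ L' ∧ z ∉ (⊥ : IntermediateField ℚ K) ∧ ∃ τ ∈ L',
      τ ∉ (⊥ : IntermediateField ℚ K) ∧ ∃ a y w : ℚ, 0 < a ∧ z ^ 2 = a * τ + y * z + w) :
    NC1 P L' := by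
  obtain ⟨D, hD, C, hC, hNC⟩ := hNC
  have main : ∃ (E : ℕ) (C1 : ℚ), 1 ≤ E ∧ 1 ≤ C1 ∧ D ∣ E ∧ ∀ z ∈ L, ∀ h : ℕ → ℤ, CM h →
      ∀ x X : ℚ, 1 ≤ x → (∀ z ∈ L', ∃ ε : ℤ, ConstOn h E z ε x X) →
        ∃ zm : ℤ, ∀ n : ℚ, (D : ℚ) * n ∈ ZZ → C1 * x ≤ n → C1 * n ^ 2 ≤ X → G h (-z) n = zm := by
    clear hNC
    induction L with
    | nil => exact ⟨D, 1, hD, le_rfl, dvd_rfl, by simp⟩
    | cons u L ih =>
      obtain ⟨E, C1, hE, hC1, hDE, h3⟩ := ih (fun z hz => hL z (List.mem_cons_of_mem _ hz))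
      obtain ⟨hu, hub, τ, hτ, hτb, a, y, w, ha, e⟩ := hL u List.mem_cons_self
      obtain ⟨E', hE', hDE', C', hC', hst⟩ := stepR' hd hub hτb ha e hD
      have hpow : ∀ n x : ℚ, max C1 C' * n ^ 2 ≤ x → C1 * n ^ 2 ≤ x ∧ C' * n ^ 2 ≤ x := by
        intro n x hn
        exact ⟨(mul_le_mul_of_nonneg_right (le_max_left _ _) (sq_nonneg n)).trans hn,
          (mul_le_mul_of_nonneg_right (le_max_right _ _) (sq_nonneg n)).trans hn⟩
      refine ⟨E * E', max C1 C', Nat.mul_pos hE hE', hC1.trans (le_max_left _ _),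
        hDE.trans (dvd_mul_right _ _), ?_⟩
      intro z hz h hh x X hx hall
      rcases List.mem_cons.1 hz with rfl | hz
      · obtain ⟨ε, hε⟩ := hall z hu
        obtain ⟨ε', hε'⟩ := hall τ hτ
        refine ⟨H h a * ε * ε', fun n hn h1 h2 => ?_⟩
        exact hst h hh x X hx ε ε' (hε.mono (dvd_mul_left _ _) le_rfl le_rfl)
          (hε'.mono (dvd_mul_left _ _) le_rfl le_rfl) n hn
          ((mul_le_mul_of_nonneg_right (le_max_right _ _) (by linarith)).trans h1) (hpow n X h2).2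
      · obtain ⟨zm, hzm⟩ := h3 z hz h hh x X hx (fun z' hz' => by
          obtain ⟨ε, hε⟩ := hall z' hz'
          exact ⟨ε, hε.mono (dvd_mul_right _ _) le_rfl le_rfl⟩)
        refine ⟨zm, fun n hn h1 h2 => hzm n hn ?_ (hpow n X h2).1⟩
        exact (mul_le_mul_of_nonneg_right (le_max_left _ _) (by linarith)).trans h1
  obtain ⟨E, C1, hE, hC1, hDE, hmain⟩ := main
  refine ⟨E, hE, C1 ^ 3 * C ^ 2, one_le_mul_of_one_le_of_one_le (one_le_pow₀ hC1)
    (one_le_pow₀ hC), ?_⟩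
  intro h hh hP x hx hall
  have hC10 : 0 ≤ C1 := by linarith
  have hC0 : 0 ≤ C := by linarith
  have hx1 : 1 ≤ C1 * x := one_le_mul_of_one_le_of_one_le hC1 hx
  refine hNC h hh hP (C1 * x) hx1 fun z hz => ?_
  obtain ⟨zm, hzm⟩ := hmain z hz h hh x _ hx hall
  obtain ⟨zp, hzp⟩ := hall z (hL z hz).1
  have hle : C * (C1 * x) ≤ C1 ^ 3 * C ^ 2 * x ^ 2 := by
    have e1 : 1 ≤ C1 ^ 2 * C * x := one_le_mul_of_one_le_of_one_le
      (one_le_mul_of_one_le_of_one_le (one_le_pow₀ hC1) hC) hx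
    have e2 : 0 ≤ C * (C1 * x) := by positivity
    calc C * (C1 * x) = C * (C1 * x) * 1 := by ring
      _ ≤ C * (C1 * x) * (C1 ^ 2 * C * x) := mul_le_mul_of_nonneg_left e1 e2
      _ = C1 ^ 3 * C ^ 2 * x ^ 2 := by ring
  refine ⟨zp, zm, fun n hn => ⟨fun h1 h2 => ?_, fun h1 h2 => ?_⟩⟩
  · refine hzp n (mul_mem_ZZ_of_dvd hDE hn) ?_ (h2.trans hle)
    have : 1 * x ≤ C1 * x := mul_le_mul_of_nonneg_right hC1 (by linarith)
    linarith
  · rw [← G_neg']
    refine hzm (-n) (by rw [mul_neg]; exact neg_mem hn) h1 ?_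
    have hn0 : 0 ≤ -n := by linarith
    have h4 : (-n) ^ 2 ≤ (C * (C1 * x)) ^ 2 := pow_le_pow_left₀ hn0 h2 2
    calc C1 * (-n) ^ 2 ≤ C1 * (C * (C1 * x)) ^ 2 := mul_le_mul_of_nonneg_left h4 hC10
      _ = C1 ^ 3 * C ^ 2 * x ^ 2 := by ring

end Pool.Agent.Lib_helper3.QUI
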