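import Mathlib
import Pool.Agent.Lib_helper3.QUI.One

/-!
Number fields of degree five: both signs for positive arguments.
-/

namespace Pool.Agent.Lib_helper3.QUI

open Pool.Agent.Lib_helper11.CUB Polynomial

variable {K : Type*} [Field K] [NumberField K]

/-- Fourteen elements near `x`. -/
theorem fourteen (h5 : Module.finrank ℚ K = 5) {x : K} (hx : x ∉ (⊥ : IntermediateField ℚ K))
    {p : ℕ} (hp : p.Prime) {ε : ℝ} (hε : 0 < ε) :
    ∃ L : List K, L.length = 14 ∧ (∀ z ∈ L, z ∉ (⊥ : IntermediateField ℚ K) ∧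
      ∀ φ : K →+* ℂ, ‖φ z - φ x‖ < ε) ∧ NC1 (fun h => h p = -1) L := by
  classical
  have hd : Odd (Module.finrank ℚ K) := by rw [h5]; decide
  obtain ⟨L, h7, hL, hNC⟩ := seven h5 hx hp (half_pos hε)
  -- a bound for the absolute values
  obtain ⟨B, hB0, hB⟩ : ∃ B : ℝ, 0 ≤ B ∧ ∀ z ∈ L, ∀ φ : K →+* ℂ, ‖φ z‖ ≤ B := by
    refine ⟨∑ φ : K →+* ℂ, ‖φ x‖ + ε / 2, by positivity, fun z hz φ => ?_⟩
    have h1 := (hL z hz).2 φ
    have h2 : ‖φ x‖ ≤ ∑ φ : K →+* ℂ, ‖φ x‖ :=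
      Finset.single_le_sum (f := fun φ : K →+* ℂ => ‖φ x‖) (fun _ _ => norm_nonneg _)
        (Finset.mem_univ φ)
    have h3 : ‖φ z‖ ≤ ‖φ z - φ x‖ + ‖φ x‖ := by
      have := norm_add_le (φ z - φ x) (φ x)
      simpa using this
    linarith
  obtain ⟨Y, hY⟩ := exists_nat_gt (2 * B ^ 2 / ε)
  have hY0 : (0 : ℝ) < Y := lt_of_le_of_lt (by positivity) hY
  have hYq : (0 : ℚ) < (Y : ℚ) := by exact_mod_cast hY0
  have hYK : (Y : K) ≠ 0 := by
    have : Y ≠ 0 := by rintro rfl; norm_num at hYq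
    exact_mod_cast this
  have hτb : ∀ z ∈ L, z + z ^ 2 / (Y : K) ∉ (⊥ : IntermediateField ℚ K) := by
    intro z hz hm
    obtain ⟨r, hr⟩ := mem_bot_iff.1 hm
    refine (hL z hz).1 (quadratic_bot hd (A := 1) (B := Y) (C := -(r * Y)) one_ne_zero ?_)
    push_cast
    rw [hr]
    field_simp
    ring
  refine ⟨L ++ L.map (fun z => z + z ^ 2 / (Y : K)), by simp [h7], ?_, ?_⟩
  · intro z hz
    rcases List.mem_append.1 hz with hz | hz
    · exact ⟨(hL z hz).1, fun φ => ((hL z hz).2 φ).trans (by linarith)⟩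
    · obtain ⟨w, hw, rfl⟩ := List.mem_map.1 hz
      refine ⟨hτb w hw, fun φ => ?_⟩
      have h1 := (hL w hw).2 φ
      have h2 := hB w hw φ
      have e1 : φ (w + w ^ 2 / (Y : K)) - φ x = (φ w - φ x) + φ w ^ 2 / (Y : ℂ) := by
        rw [map_add, map_div₀, map_pow, map_natCast]; ring
      have e2 : ‖φ w ^ 2 / (Y : ℂ)‖ < ε / 2 := by
        rw [norm_div, norm_pow, Complex.norm_natCast, div_lt_iff₀ hY0]
        rw [div_lt_iff₀ hε] at hY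
        have : ‖φ w‖ ^ 2 ≤ B ^ 2 := pow_le_pow_left₀ (norm_nonneg _) h2 2
        nlinarith
      rw [e1]
      calc ‖(φ w - φ x) + φ w ^ 2 / (Y : ℂ)‖ ≤ ‖φ w - φ x‖ + ‖φ w ^ 2 / (Y : ℂ)‖ := norm_add_le _ _
        _ < ε := by linarith
  · refine hNC.one hd fun z hz => ⟨List.mem_append_left _ hz, (hL z hz).1, z + z ^ 2 / (Y : K),
      List.mem_append_right _ (List.mem_map.2 ⟨z, hz, rfl⟩), hτb z hz, Y, -Y, 0, hYq, ?_⟩
    push_cast
    field_simp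
    ring

/-- A sign is not constant for large positive numbers: values of the minimal polynomial. -/
theorem one_end1 (hd : Odd (Module.finrank ℚ K)) {h : ℕ → ℤ} (hh : CM h) {z : K}
    (hz : z ∉ (⊥ : IntermediateField ℚ K))
    (hdeg : (minpoly ℚ z).natDegree = Module.finrank ℚ K) {v D : ℕ} (hv : 1 ≤ v) (hD : D ∣ v)
    (hint : IsIntegral ℤ ((v : K) * z)) {x : ℕ} (hx : 1 ≤ x) {X : ℚ}
    (hne : ¬ ∃ ε : ℤ, ConstOn h D z ε x X) :
    ∀ s : ℤ, (s = 1 ∨ s = -1) → ∃ n : ℕ, x ≤ n ∧ (n : ℚ) ≤ v * X ∧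
      h ((minpoly ℤ ((v : K) * z)).eval (n : ℤ)).natAbs = s := by
  intro s hs
  by_contra hcon
  push Not at hcon
  apply hne
  have hvv := hh.values v hv
  have hvq : (1 : ℚ) ≤ v := by exact_mod_cast hv
  have hxq : (1 : ℚ) ≤ x := by exact_mod_cast hx
  refine ⟨-(h v * s), fun k hk h1 h2 => ?_⟩
  obtain ⟨m, hm⟩ := mem_ZZ.1 (mul_mem_ZZ_of_dvd hD hk)
  have hmx : (x : ℚ) ≤ (m : ℚ) := by rw [hm]; nlinarith
  have hm0 : 0 ≤ m := by
    have : (0 : ℚ) ≤ (m : ℚ) := by linarith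
    exact_mod_cast this
  obtain ⟨n, rfl⟩ := Int.eq_ofNat_of_zero_le hm0
  have h3 := hcon n (by exact_mod_cast hmx) (by
    have : ((n : ℤ) : ℚ) = v * k := hm
    rw [Int.cast_natCast] at this
    rw [this]
    exact mul_le_mul_of_nonneg_left h2 (by linarith))
  have h4 := G_scaled' hd hh hz hdeg hv hint (e := 1) (Or.inl rfl) (k := k) (n := (n : ℤ))
    (by push_cast at hm ⊢; rw [hm]; ring)
  have e1 : (((1 * (v : ℤ) : ℤ)) : K) = (v : K) := by push_cast; ring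
  rw [e1] at h4
  rw [h4] at h3
  rcases G_vals' hh hz k with g | g <;> rcases hvv with g' | g' <;> rcases hs with g'' | g'' <;>
    rw [g, g', g''] at h3 <;> rw [g, g', g''] <;>
    first | rfl | (exfalso; exact h3 (by norm_num))

/-- Windows for positive arguments. -/
theorem windows1 (hd : Odd (Module.finrank ℚ K)) (h1 : 1 < Module.finrank ℚ K) {L : List K}
    (hL : ∀ z ∈ L, (minpoly ℚ z).natDegree = Module.finrank ℚ K) {P : (ℕ → ℤ) → Prop}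
    (hNC : NC1 P L) :
    ∃ m : ℕ, 1 ≤ m ∧ ∀ v : ℕ, 1 ≤ v → m ∣ v → (∀ z ∈ L, IsIntegral ℤ ((v : K) * z)) ∧
      ∃ C' : ℕ, ∀ h : ℕ → ℤ, CM h → P h → ∀ x : ℕ, 1 ≤ x → ∃ z ∈ L,
        ∀ s : ℤ, (s = 1 ∨ s = -1) → ∃ n : ℕ, x ≤ n ∧ n ≤ C' * x ^ 2 ∧
          h ((minpoly ℤ ((v : K) * z)).eval (n : ℤ)).natAbs = s := by
  obtain ⟨D, hD, C, hC, core⟩ := hNC
  obtain ⟨m, hm, hmL⟩ := common_int L
  refine ⟨D * m, Nat.mul_pos hD hm, fun v hv hmv => ?_⟩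
  have hDv : D ∣ v := (dvd_mul_right _ _).trans hmv
  have hint : ∀ z ∈ L, IsIntegral ℤ ((v : K) * z) := by
    intro z hz
    obtain ⟨k, rfl⟩ := (dvd_mul_left _ _).trans hmv
    have natInt : IsIntegral ℤ (k : K) := by
      have := isIntegral_algebraMap (R := ℤ) (A := K) (x := (k : ℤ))
      simpa using this
    have e : ((m * k : ℕ) : K) * z = (k : K) * ((m : K) * z) := by push_cast; ring
    rw [e]; exact natInt.mul (hmL z hz)
  refine ⟨hint, ?_⟩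
  obtain ⟨C', hC'⟩ := exists_nat_ge ((v : ℚ) * C)
  refine ⟨C', fun h hh hP x hx => ?_⟩
  have hcx := core h hh hP x (by exact_mod_cast hx)
  push Not at hcx
  obtain ⟨z, hz, hne⟩ := hcx
  have H := one_end1 hd hh (bot_of_deg (hL z hz) h1) (hL z hz) hv hDv (hint z hz) hx
    (X := C * x ^ 2) (by push Not; exact hne)
  refine ⟨z, hz, fun s hs => ?_⟩
  obtain ⟨n, h2, h3, h4⟩ := H s hs
  refine ⟨n, h2, ?_, h4⟩
  have h5 : (n : ℚ) ≤ ((C' * x ^ 2 : ℕ) : ℚ) := by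
    refine h3.trans ?_
    push_cast
    rw [← mul_assoc]
    exact mul_le_mul_of_nonneg_right hC' (by positivity)
  exact_mod_cast h5

/-- All number fields of degree five: fourteen elements near a given one, one of which has both
signs for positive arguments. -/
theorem quintics1 (h5 : Module.finrank ℚ K = 5) {y : K} (hy : y ∉ (⊥ : IntermediateField ℚ K))
    {ε : ℝ} (hε : 0 < ε) {p : ℕ} (hp : p.Prime) :
    ∃ z : Fin 14 → K, (∀ i, z i ∉ (⊥ : IntermediateField ℚ K) ∧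
        ∀ φ : K →+* ℂ, ‖φ (z i) - φ y‖ < ε) ∧
      ∃ m : ℕ, 1 ≤ m ∧ ∀ v : ℕ, 1 ≤ v → m ∣ v → (∀ i, IsIntegral ℤ ((v : K) * z i)) ∧
        ∃ C : ℕ, ∀ h : ℕ → ℤ, CM h → h p = -1 →
          (∀ x : ℕ, 1 ≤ x → ∃ i, ∀ s : ℤ, (s = 1 ∨ s = -1) →
            ∃ n : ℕ, x ≤ n ∧ n ≤ C * x ^ 2 ∧
              h ((minpoly ℤ ((v : K) * z i)).eval (n : ℤ)).natAbs = s) ∧
          ∃ i, ∀ N : ℕ, ∀ s : ℤ, (s = 1 ∨ s = -1) →
            ∃ n : ℕ, N ≤ n ∧ h ((minpoly ℤ ((v : K) * z i)).eval (n : ℤ)).natAbs = s := by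
  have hd : Odd (Module.finrank ℚ K) := by rw [h5]; decide
  obtain ⟨L, h14, hL, hNC⟩ := fourteen h5 hy hp hε
  obtain ⟨m, hm, H⟩ := windows1 hd (by rw [h5]; norm_num)
    (fun z hz => deg_five h5 (hL z hz).1) hNC
  have hmem : ∀ i : Fin 14, L.get (i.cast h14.symm) ∈ L := fun i => List.get_mem L _
  have hsurj : ∀ z ∈ L, ∃ i : Fin 14, L.get (i.cast h14.symm) = z := by
    intro z hz
    obtain ⟨j, hj⟩ := List.mem_iff_get.1 hz
    exact ⟨j.cast h14, by simpa using hj⟩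
  refine ⟨fun i => L.get (i.cast h14.symm), fun i => hL _ (hmem i), m, hm, fun v hv hmv => ?_⟩
  obtain ⟨Hint, C, HC⟩ := H v hv hmv
  refine ⟨fun i => Hint _ (hmem i), C, fun h hh hhp => ?_⟩
  have main : ∀ x : ℕ, 1 ≤ x → ∃ i : Fin 14,
      ∀ s : ℤ, (s = 1 ∨ s = -1) → ∃ n : ℕ, x ≤ n ∧ n ≤ C * x ^ 2 ∧
        h ((minpoly ℤ ((v : K) * L.get (i.cast h14.symm))).eval (n : ℤ)).natAbs = s := by
    intro x hx
    obtain ⟨z, hz, H1⟩ := HC h hh hhp x hx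
    obtain ⟨i, rfl⟩ := hsurj z hz
    exact ⟨i, H1⟩
  refine ⟨main, ?_⟩
  obtain ⟨i, -, hP⟩ := pigeon (T := (Finset.univ : Finset (Fin 14)))
    (Q := fun i x => ∀ s : ℤ, (s = 1 ∨ s = -1) → ∃ n : ℕ, x ≤ n ∧ n ≤ C * x ^ 2 ∧
        h ((minpoly ℤ ((v : K) * L.get (i.cast h14.symm))).eval (n : ℤ)).natAbs = s)
    (fun x hx => by obtain ⟨i, hi⟩ := main x hx; exact ⟨i, Finset.mem_univ _, hi⟩)
  refine ⟨i, fun N s hs => ?_⟩
  obtain ⟨x, hx, H2⟩ := hP N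
  obtain ⟨n, h1, -, h3⟩ := H2 s hs
  exact ⟨n, hx.trans h1, h3⟩

end Pool.Agent.Lib_helper3.QUI
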